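import Pool.Agent.N657.CE.Count

/-!
# The case of perpendicular planes, `α² + β² = 1`
-/

set_option autoImplicit false

namespace Pool.Agent.N657.CE

open Real Set

/-- the counting function for perpendicular planes -/
noncomputable def HH (e φ f : ℝ) : ℝ := (1 + e * cos f) * (cos (f - φ) + e * cos φ) / sin f

/-- minus the numerator of the derivative of `HH` -/
noncomputable def D1 (e φ f : ℝ) : ℝ :=
  cos φ * (1 + e ^ 2 + 3 * e * cos f - e * cos f ^ 3) + sin φ * (e * sin f ^ 3)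

lemma hasDerivAt_HH (e φ f : ℝ) (hs : sin f ≠ 0) :
    HasDerivAt (HH e φ) (-D1 e φ f / sin f ^ 2) f := by
  have h1 : HasDerivAt (fun x => cos (x - φ)) (-sin (f - φ)) f := by
    have := ((hasDerivAt_id f).sub_const φ).cos
    simpa using this
  have h2 := ((((hasDerivAt_cos f).const_mul e).const_add 1).mul
    (h1.add_const (e * cos φ))).div (hasDerivAt_sin f) hs
  refine h2.congr_deriv ?_
  have hsc : sin f ^ 2 + cos f ^ 2 = 1 := sin_sq_add_cos_sq f
  simp only [Pi.mul_apply]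
  unfold D1
  rw [cos_sub, sin_sub]
  generalize cos f = c at *
  generalize sin f = s at *
  congr 1
  linear_combination (-(e ^ 2 * cos φ) - 2 * e * cos φ * c - cos φ) * hsc

lemma D1_upper {e φ : ℝ} (he0 : 0 < e) (he1 : e < 1) (hφ0 : 0 ≤ φ) (hφ1 : φ < π / 2) (f : ℝ)
    (hf : f ∈ Ioo 0 π) : 0 < D1 e φ f := by
  unfold D1
  have hcφ : 0 < cos φ := cos_pos_of_mem_Ioo ⟨by linarith [pi_pos], hφ1⟩
  have hsφ : 0 ≤ sin φ := sin_nonneg_of_nonneg_of_le_pi hφ0 (by linarith [pi_pos])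
  have hs : 0 < sin f := sin_pos_of_pos_of_lt_pi hf.1 hf.2
  have h1 := neg_one_le_cos f
  have h2 := cos_le_one f
  have h3 : 0 < 1 + e ^ 2 + 3 * e * cos f - e * cos f ^ 3 := by
    have h4 : 0 ≤ 2 + 3 * cos f - cos f ^ 3 := by
      have : 2 + 3 * cos f - cos f ^ 3 = (cos f + 1) ^ 2 * (2 - cos f) := by ring
      rw [this]
      exact mul_nonneg (sq_nonneg _) (by linarith)
    have h5 : 0 < (1 - e) ^ 2 := by
      have : 0 < 1 - e := by linarith
      positivity
    nlinarith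
  positivity

/-- upper half: each level is attained at most once -/
lemma upper_HH {e φ : ℝ} (he0 : 0 < e) (he1 : e < 1) (hφ0 : 0 ≤ φ) (hφ1 : φ < π / 2) (k : ℝ)
    (T : Finset ℝ) (hT : ∀ y ∈ T, y ∈ Ioo 0 π ∧ HH e φ y = k) : T.card ≤ 1 := by
  have hs : ∀ y ∈ Ioo 0 π, 0 < sin y := fun y hy => sin_pos_of_pos_of_lt_pi hy.1 hy.2
  refine level_le (m := 0) (G' := fun f => -D1 e φ f / sin f ^ 2)
    (fun y hy => hasDerivAt_HH e φ y (hs y hy).ne') ?_ T hT
  intro T' hT'
  rw [Nat.le_zero, Finset.card_eq_zero]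
  refine Finset.eq_empty_of_forall_notMem fun y hy => ?_
  have h1 := (hT' y hy).2
  have h2 := D1_upper he0 he1 hφ0 hφ1 y (hT' y hy).1
  have h3 := hs y (hT' y hy).1
  simp only [div_eq_zero_iff, neg_eq_zero] at h1
  rcases h1 with h1 | h1
  · exact h2.ne' h1
  · exact absurd h1 (by positivity)

lemma cos_inj_lower {y z : ℝ} (hy : y ∈ Icc (-π) 0) (hz : z ∈ Icc (-π) 0) (h : cos y = cos z) :
    y = z := by
  have h1 : -y = -z := injOn_cos ⟨by linarith [hy.2], by linarith [hy.1]⟩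
    ⟨by linarith [hz.2], by linarith [hz.1]⟩ (by rw [cos_neg, cos_neg, h])
  linarith

lemma lower_D1 {e φ : ℝ} (he0 : 0 < e) (he1 : e < 1) (hcφ : 0 < cos φ) (T : Finset ℝ)
    (hT : ∀ y ∈ T, y ∈ Ioo (-π) 0 ∧ D1 e φ y = 0) : T.card ≤ 2 := by
  have hs : ∀ y ∈ Ioo (-π) 0, sin y < 0 := fun y hy => sin_neg_of_neg_of_neg_pi_lt hy.2 hy.1
  have hder : ∀ y ∈ Ioo (-π) 0, HasDerivAt (fun x => D1 e φ x / sin x ^ 3)
      (-3 * cos φ * (cos y + e) * (1 + e * cos y) / sin y ^ 4) y := by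
    intro y hy
    have hs0 := (hs y hy).ne
    have hc := hasDerivAt_cos y
    have hsn := hasDerivAt_sin y
    have h1 := ((((hc.const_mul (3 * e)).const_add (1 + e ^ 2)).sub
      ((hc.pow 3).const_mul e)).const_mul (cos φ)).add (((hsn.pow 3).const_mul e).const_mul (sin φ))
    have h2 : HasDerivAt (D1 e φ) _ y := h1
    have h := h2.div (hsn.pow 3) (by
      simp only [Pi.pow_apply]; exact pow_ne_zero _ hs0)
    refine h.congr_deriv ?_
    have hsc : sin y ^ 2 + cos y ^ 2 = 1 := sin_sq_add_cos_sq y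
    simp only [Pi.pow_apply]
    unfold D1
    push_cast
    generalize cos y = c at *
    generalize sin y = s at *
    rw [div_eq_div_iff (by positivity) (by positivity)]
    linear_combination (s ^ 6 * (3 * e * cos φ * c ^ 2 - 3 * e * cos φ)) * hsc
  refine level_le (m := 1) (k := 0) hder ?_ T (fun y hy => ⟨(hT y hy).1, by simp [(hT y hy).2]⟩)
  intro T' hT'
  rw [Finset.card_le_one]
  have hcos : ∀ y ∈ T', cos y = -e := by
    intro y hy
    have h1 := (hT' y hy).2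
    have hs0 := (hs y (hT' y hy).1).ne
    rw [div_eq_zero_iff] at h1
    rcases h1 with h1 | h1
    · have h2 : 0 < 1 + e * cos y := by nlinarith [neg_one_le_cos y]
      have h3 := (mul_eq_zero.1 h1).resolve_right h2.ne'
      have h4 := (mul_eq_zero.1 h3).resolve_left (by
        have : 0 < 3 * cos φ := by positivity
        intro h0
        linarith)
      linarith
    · exact absurd h1 (pow_ne_zero _ hs0)
  intro y hy z hz
  exact cos_inj_lower (Ioo_subset_Icc_self (hT' y hy).1) (Ioo_subset_Icc_self (hT' z hz).1)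
    (by rw [hcos y hy, hcos z hz])

lemma lower_HH_zero {e φ : ℝ} (he0 : 0 < e) (he1 : e < 1) (hφ0 : 0 ≤ φ) (hφ1 : φ < π / 2)
    (T : Finset ℝ) (hT : ∀ y ∈ T, y ∈ Ioo (-π) 0 ∧ HH e φ y = 0) : T.card ≤ 1 := by
  have hcφ : 0 < cos φ := cos_pos_of_mem_Ioo ⟨by linarith [pi_pos], hφ1⟩
  have hs : ∀ y ∈ Ioo (-π) 0, sin y < 0 := fun y hy => sin_neg_of_neg_of_neg_pi_lt hy.2 hy.1
  rw [Finset.card_le_one]
  have key : ∀ y ∈ T, cos (y - φ) = -(e * cos φ) ∧ y - φ ∈ Icc (-π) 0 := by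
    intro y hy
    have hy' := (hT y hy).1
    have h1 := (hT y hy).2
    unfold HH at h1
    rw [div_eq_zero_iff] at h1
    have h2 : 0 < 1 + e * cos y := by nlinarith [neg_one_le_cos y]
    have h3 : cos (y - φ) + e * cos φ = 0 := by
      rcases h1 with h1 | h1
      · exact (mul_eq_zero.1 h1).resolve_left h2.ne'
      · exact absurd h1 (hs y hy').ne
    refine ⟨by linarith, ?_, by linarith [hy'.2]⟩
    by_contra hcon
    push Not at hcon
    -- `y - φ < -π`
    have h4 : cos φ ≤ cos (y - φ + π) := by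
      rw [← cos_abs (y - φ + π)]
      refine cos_le_cos_of_nonneg_of_le_pi (abs_nonneg _) (by linarith [pi_pos]) ?_
      rw [abs_of_neg (by linarith)]
      linarith [hy'.1]
    rw [cos_add_pi] at h4
    nlinarith
  intro y hy z hz
  have := cos_inj_lower (key y hy).2 (key z hz).2 (by rw [(key y hy).1, (key z hz).1])
  linarith

/-- lower half: the levels `± K` are attained at most four times -/
lemma lower_HH {e φ K : ℝ} (he0 : 0 < e) (he1 : e < 1) (hφ0 : 0 ≤ φ) (hφ1 : φ < π / 2) (hK : 0 < K)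
    (T : Finset ℝ) (hT : ∀ y ∈ T, y ∈ Ioo (-π) 0 ∧ (HH e φ y = K ∨ HH e φ y = -K)) :
    T.card ≤ 4 := by
  have hcφ : 0 < cos φ := cos_pos_of_mem_Ioo ⟨by linarith [pi_pos], hφ1⟩
  have hs : ∀ y ∈ Ioo (-π) 0, sin y < 0 := fun y hy => sin_neg_of_neg_of_neg_pi_lt hy.2 hy.1
  refine pm_le (m0 := 1) (m1 := 2) hK (G' := fun f => -D1 e φ f / sin f ^ 2)
    (fun y hy => hasDerivAt_HH e φ y (hs y hy).ne) ?_
    (fun T' hT' => lower_HH_zero he0 he1 hφ0 hφ1 T' hT') T hT
  intro T' hT'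
  refine lower_D1 he0 he1 hcφ T' (fun y hy => ⟨(hT' y hy).1, ?_⟩)
  have h1 := (hT' y hy).2
  simp only [div_eq_zero_iff, neg_eq_zero] at h1
  rcases h1 with h1 | h1
  · exact h1
  · exact absurd h1 (pow_ne_zero _ (hs y (hT' y hy).1).ne)

end Pool.Agent.N657.CE
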