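import Pool.Agent.N657.CE.Generic
import Pool.Agent.N657.CE.Perp

/-!
# Counting solutions on the unit circle
-/

set_option autoImplicit false

namespace Pool.Agent.N657.CE

open Real Set

/-- The stationary pairs in terms of the direction `(c, s)` of the point of the ellipse and the signed
relative distance `l` to the axis of the circle. -/
def ZZ (α β e K : ℝ) : Set (ℝ × ℝ × ℝ) :=
  {x | x.1 ^ 2 + x.2.1 ^ 2 = 1 ∧ x.2.2 ^ 2 = 1 - (α * x.1 + β * x.2.1) ^ 2 ∧ x.2.2 ≠ 0 ∧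
    (1 + e * x.1) * (e * x.2.1 - (α * x.1 + β * x.2.1) * (β * x.1 - α * x.2.1)
      - e * β * (α * x.1 + β * x.2.1)) = K * x.2.2 * x.2.1}

lemma encard_le_of_finset {X : Type*} {S : Set X} {n : ℕ}
    (h : ∀ T : Finset X, (∀ x ∈ T, x ∈ S) → T.card ≤ n) : S.encard ≤ n := by
  by_contra hcon
  push Not at hcon
  have h1 : ((n + 1 : ℕ) : ℕ∞) ≤ S.encard := by
    push_cast
    exact Order.add_one_le_of_lt hcon
  obtain ⟨T, hTS, hT⟩ := Set.exists_subset_encard_eq h1
  have hfin : T.Finite := Set.finite_of_encard_eq_coe hT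
  have h2 := h hfin.toFinset (fun x hx => hTS (by simpa using hx))
  have h3 : T.encard = (hfin.toFinset.card : ℕ∞) := by
    rw [← Set.encard_coe_eq_coe_finsetCard]; simp
  rw [h3] at hT
  have h4 : hfin.toFinset.card = n + 1 := by exact_mod_cast hT
  omega

lemma eq_of_sq_eq_pos {a b : ℝ} (h : a ^ 2 = b ^ 2) (ha : 0 < a) (hb : 0 < b) : a = b :=
  (pow_left_inj₀ ha.le hb.le two_ne_zero).1 h

lemma eq_of_sq_eq_neg {a b : ℝ} (h : a ^ 2 = b ^ 2) (ha : a < 0) (hb : b < 0) : a = b := by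
  have := eq_of_sq_eq_pos (a := -a) (b := -b) (by rw [neg_sq, neg_sq, h]) (by linarith) (by linarith)
  linarith

lemma circle_c_mem {c s : ℝ} (h : c ^ 2 + s ^ 2 = 1) (hs : s ≠ 0) : -1 < c ∧ c < 1 := by
  have : 0 < s ^ 2 := by positivity
  constructor <;> nlinarith

lemma sin_arccos_pos {c s : ℝ} (h : c ^ 2 + s ^ 2 = 1) (hs : 0 < s) : sin (arccos c) = s := by
  rw [sin_arccos, show 1 - c ^ 2 = s ^ 2 by linarith, sqrt_sq hs.le]

lemma sin_arccos_neg {c s : ℝ} (h : c ^ 2 + s ^ 2 = 1) (hs : s < 0) : sin (arccos c) = -s := by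
  rw [sin_arccos, show 1 - c ^ 2 = (-s) ^ 2 by linarith, sqrt_sq (by linarith)]

lemma GG_eq {α β e K c s l f : ℝ} (hl : l ^ 2 = 1 - (α * c + β * s) ^ 2) (hl0 : l ≠ 0) (hs0 : s ≠ 0)
    (h : (1 + e * c) * (e * s - (α * c + β * s) * (β * c - α * s)
      - e * β * (α * c + β * s)) = K * l * s) (hc : cos f = c) (hs : sin f = s) :
    (0 < l → GG e α β f = K) ∧ (l < 0 → GG e α β f = -K) := by
  have h1 : GG e α β f = K * l * s / (√(l ^ 2) * s) := by
    rw [← h, hl]
    unfold GG TT AA JJ ze z1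
    rw [hc, hs]
  constructor
  · intro h0
    rw [h1, sqrt_sq h0.le]
    field_simp
  · intro h0
    rw [h1, sqrt_sq_eq_abs, abs_of_neg h0]
    field_simp

/-- the generic case with positive parameters -/
lemma card_generic_pos {e ρ φ K : ℝ} (he0 : 0 < e) (he1 : e < 1) (hρ0 : 0 < ρ) (hρ1 : ρ < 1)
    (hφ0 : 0 < φ) (hφ1 : φ < π / 2) (hK : 0 < K) (T : Finset (ℝ × ℝ × ℝ))
    (hT : ∀ x ∈ T, x ∈ ZZ (ρ * cos φ) (ρ * sin φ) e K) : T.card ≤ 10 := by
  classical
  have hcφ : 0 < cos φ := cos_pos_of_mem_Ioo ⟨by linarith, hφ1⟩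
  have hsφ : 0 < sin φ := sin_pos_of_pos_of_lt_pi hφ0 (by linarith [pi_pos])
  set α := ρ * cos φ with hα
  set β := ρ * sin φ with hβ
  have hα0 : 0 < α := by positivity
  have hβ0 : 0 < β := by positivity
  have hs : ∀ x ∈ T, x.2.1 ≠ 0 := by
    intro x hx h0
    obtain ⟨h1, -, -, h4⟩ := hT x hx
    rw [h0] at h1 h4
    have h5 : x.1 ^ 2 = 1 := by linarith
    have h6 : α * β * (1 + e * x.1) * (1 + e * x.1) = 0 := by
      have : (1 + e * x.1) * (e * 0 - (α * x.1 + β * 0) * (β * x.1 - α * 0)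
        - e * β * (α * x.1 + β * 0)) = -(α * β * (1 + e * x.1) * (x.1 ^ 2 + e * x.1)) := by ring
      rw [this, h5] at h4
      linarith
    have h8 : -1 ≤ x.1 := by nlinarith
    have h7 : 0 < 1 + e * x.1 := by nlinarith
    have : 0 < α * β * (1 + e * x.1) * (1 + e * x.1) := by positivity
    exact this.ne' h6
  -- the three parts
  set T1 := T.filter fun x => 0 < x.2.1 ∧ 0 < x.2.2 with hT1
  set T2 := T.filter fun x => 0 < x.2.1 ∧ x.2.2 < 0 with hT2
  set T3 := T.filter fun x => x.2.1 < 0 with hT3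
  have hcov : T ⊆ T1 ∪ T2 ∪ T3 := by
    intro x hx
    have h1 := hs x hx
    have h2 := (hT x hx).2.2.1
    simp only [Finset.mem_union, hT1, hT2, hT3, Finset.mem_filter]
    rcases lt_or_gt_of_ne h1 with h | h
    · exact Or.inr ⟨hx, h⟩
    · rcases lt_or_gt_of_ne h2 with h' | h'
      · exact Or.inl (Or.inr ⟨hx, h, h'⟩)
      · exact Or.inl (Or.inl ⟨hx, h, h'⟩)
  have c1 : T1.card ≤ 2 := by
    have hinj : Set.InjOn (fun x : ℝ × ℝ × ℝ => arccos x.1) T1 := by
      intro x hx y hy hxy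
      obtain ⟨hx, hx1, hx2⟩ := Finset.mem_filter.1 hx
      obtain ⟨hy, hy1, hy2⟩ := Finset.mem_filter.1 hy
      obtain ⟨x1, x2, -, -⟩ := hT x hx
      obtain ⟨y1, y2, -, -⟩ := hT y hy
      have e1 : x.1 = y.1 := arccos_injOn (by
        have := circle_c_mem x1 hx1.ne'; exact ⟨this.1.le, this.2.le⟩) (by
        have := circle_c_mem y1 hy1.ne'; exact ⟨this.1.le, this.2.le⟩) hxy
      have e2 : x.2.1 = y.2.1 := eq_of_sq_eq_pos (by rw [e1] at x1; linarith) hx1 hy1
      have e3 : x.2.2 = y.2.2 := eq_of_sq_eq_pos (by rw [x2, y2, e1, e2]) hx2 hy2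
      exact Prod.ext e1 (Prod.ext e2 e3)
    rw [← Finset.card_image_of_injOn hinj]
    refine upper_GG he0 he1 hρ0 hρ1 hφ0 hφ1 K _ ?_
    intro f hf
    obtain ⟨x, hx, rfl⟩ := Finset.mem_image.1 hf
    obtain ⟨hx, hx1, hx2⟩ := Finset.mem_filter.1 hx
    obtain ⟨x1, x2, x3, x4⟩ := hT x hx
    have hc := circle_c_mem x1 hx1.ne'
    refine ⟨⟨arccos_pos.2 hc.2, arccos_lt_pi.2 hc.1⟩, ?_⟩
    exact (GG_eq x2 x3 hx1.ne' x4 (cos_arccos hc.1.le hc.2.le) (sin_arccos_pos x1 hx1)).1 hx2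
  have c2 : T2.card ≤ 2 := by
    have hinj : Set.InjOn (fun x : ℝ × ℝ × ℝ => arccos x.1) T2 := by
      intro x hx y hy hxy
      obtain ⟨hx, hx1, hx2⟩ := Finset.mem_filter.1 hx
      obtain ⟨hy, hy1, hy2⟩ := Finset.mem_filter.1 hy
      obtain ⟨x1, x2, -, -⟩ := hT x hx
      obtain ⟨y1, y2, -, -⟩ := hT y hy
      have e1 : x.1 = y.1 := arccos_injOn (by
        have := circle_c_mem x1 hx1.ne'; exact ⟨this.1.le, this.2.le⟩) (by
        have := circle_c_mem y1 hy1.ne'; exact ⟨this.1.le, this.2.le⟩) hxy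
      have e2 : x.2.1 = y.2.1 := eq_of_sq_eq_pos (by rw [e1] at x1; linarith) hx1 hy1
      have e3 : x.2.2 = y.2.2 := eq_of_sq_eq_neg (by rw [x2, y2, e1, e2]) hx2 hy2
      exact Prod.ext e1 (Prod.ext e2 e3)
    rw [← Finset.card_image_of_injOn hinj]
    refine upper_GG he0 he1 hρ0 hρ1 hφ0 hφ1 (-K) _ ?_
    intro f hf
    obtain ⟨x, hx, rfl⟩ := Finset.mem_image.1 hf
    obtain ⟨hx, hx1, hx2⟩ := Finset.mem_filter.1 hx
    obtain ⟨x1, x2, x3, x4⟩ := hT x hx
    have hc := circle_c_mem x1 hx1.ne'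
    refine ⟨⟨arccos_pos.2 hc.2, arccos_lt_pi.2 hc.1⟩, ?_⟩
    exact (GG_eq x2 x3 hx1.ne' x4 (cos_arccos hc.1.le hc.2.le) (sin_arccos_pos x1 hx1)).2 hx2
  have c3 : T3.card ≤ 6 := by
    have hval : ∀ x ∈ T3, (0 < x.2.2 → GG e α β (-arccos x.1) = K) ∧
        (x.2.2 < 0 → GG e α β (-arccos x.1) = -K) := by
      intro x hx
      obtain ⟨hx, hx1⟩ := Finset.mem_filter.1 hx
      obtain ⟨x1, x2, x3, x4⟩ := hT x hx
      have hc := circle_c_mem x1 hx1.ne
      exact GG_eq x2 x3 hx1.ne x4 (by rw [cos_neg]; exact cos_arccos hc.1.le hc.2.le)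
        (by rw [sin_neg, sin_arccos_neg x1 hx1, neg_neg])
    have hinj : Set.InjOn (fun x : ℝ × ℝ × ℝ => -arccos x.1) T3 := by
      intro x hx0 y hy0 hxy
      obtain ⟨hx, hx1⟩ := Finset.mem_filter.1 hx0
      obtain ⟨hy, hy1⟩ := Finset.mem_filter.1 hy0
      obtain ⟨x1, x2, x3, -⟩ := hT x hx
      obtain ⟨y1, y2, y3, -⟩ := hT y hy
      simp only [neg_inj] at hxy
      have e1 : x.1 = y.1 := arccos_injOn (by
        have := circle_c_mem x1 hx1.ne; exact ⟨this.1.le, this.2.le⟩) (by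
        have := circle_c_mem y1 hy1.ne; exact ⟨this.1.le, this.2.le⟩) hxy
      have e2 : x.2.1 = y.2.1 := eq_of_sq_eq_neg (by rw [e1] at x1; linarith) hx1 hy1
      have e3 : x.2.2 = y.2.2 := by
        have vx := hval x hx0
        have vy := hval y hy0
        rw [← e1] at vy
        rcases lt_or_gt_of_ne x3 with h | h <;> rcases lt_or_gt_of_ne y3 with h' | h'
        · exact eq_of_sq_eq_neg (by rw [x2, y2, e1, e2]) h h'
        · exfalso
          have a1 := vx.2 h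
          have a2 := vy.1 h'
          linarith
        · exfalso
          have a1 := vx.1 h
          have a2 := vy.2 h'
          linarith
        · exact eq_of_sq_eq_pos (by rw [x2, y2, e1, e2]) h h'
      exact Prod.ext e1 (Prod.ext e2 e3)
    rw [← Finset.card_image_of_injOn hinj]
    refine lower_GG he0 he1 hρ0 hρ1 hφ0 hφ1 hK _ ?_
    intro f hf
    obtain ⟨x, hx0, rfl⟩ := Finset.mem_image.1 hf
    obtain ⟨hx, hx1⟩ := Finset.mem_filter.1 hx0
    obtain ⟨x1, x2, x3, x4⟩ := hT x hx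
    have hc := circle_c_mem x1 hx1.ne
    refine ⟨⟨by have := arccos_lt_pi.2 hc.1; linarith, by have := arccos_pos.2 hc.2; linarith⟩, ?_⟩
    rcases lt_or_gt_of_ne x3 with h | h
    · exact Or.inr ((hval x hx0).2 h)
    · exact Or.inl ((hval x hx0).1 h)
  have h := (Finset.card_le_card hcov).trans (Finset.card_union_le _ _)
  have h' := Finset.card_union_le T1 T2
  omega

lemma zz_neg {α β e K : ℝ} {x : ℝ × ℝ × ℝ} (h : x ∈ ZZ α β e K) : x ∈ ZZ (-α) (-β) e K := by
  obtain ⟨h1, h2, h3, h4⟩ := h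
  refine ⟨h1, by rw [h2]; ring, h3, by rw [← h4]; ring⟩

lemma zz_flip {α β e K : ℝ} {x : ℝ × ℝ × ℝ} (h : x ∈ ZZ α β e K) :
    (x.1, -x.2.1, x.2.2) ∈ ZZ α (-β) e K := by
  obtain ⟨h1, h2, h3, h4⟩ := h
  refine ⟨by simpa using h1, by simp only; rw [h2]; ring, h3, ?_⟩
  simp only
  linear_combination (-1) * h4

lemma flip_injective : Function.Injective (fun x : ℝ × ℝ × ℝ => (x.1, -x.2.1, x.2.2)) := by
  intro x y h
  simp only [Prod.mk.injEq, neg_inj] at h
  exact Prod.ext h.1 (Prod.ext h.2.1 h.2.2)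

lemma exists_polar {α β : ℝ} (hα : 0 < α) (hβ : 0 ≤ β) :
    ∃ ρ φ : ℝ, 0 < ρ ∧ ρ ^ 2 = α ^ 2 + β ^ 2 ∧ 0 ≤ φ ∧ φ < π / 2 ∧ α = ρ * cos φ ∧
      β = ρ * sin φ ∧ (0 < β → 0 < φ) := by
  set ρ := √(α ^ 2 + β ^ 2) with hρ
  have hρ2 : ρ ^ 2 = α ^ 2 + β ^ 2 := sq_sqrt (by positivity)
  have hρ0 : 0 < ρ := sqrt_pos.2 (by positivity)
  have h1 : α ≤ ρ := by
    by_contra h
    push Not at h
    nlinarith [sq_nonneg β]
  have h2 : 0 < α / ρ := by positivity
  have h3 : α / ρ ≤ 1 := (div_le_one hρ0).2 h1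
  refine ⟨ρ, arccos (α / ρ), hρ0, hρ2, arccos_nonneg _, ?_, ?_, ?_, ?_⟩
  · rw [arccos_lt_pi_div_two]; exact h2
  · rw [cos_arccos (by linarith) h3]; field_simp
  · rw [sin_arccos, show 1 - (α / ρ) ^ 2 = (β / ρ) ^ 2 by
      field_simp; linarith, sqrt_sq (by positivity)]
    field_simp
  · intro hb
    rw [arccos_pos]
    rw [div_lt_one hρ0]
    by_contra h
    push Not at h
    nlinarith

/-- the generic case -/
lemma card_generic {e α β K : ℝ} (he0 : 0 < e) (he1 : e < 1) (hα : α ≠ 0) (hβ : β ≠ 0)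
    (hαβ : α ^ 2 + β ^ 2 < 1) (hK : 0 < K) (T : Finset (ℝ × ℝ × ℝ))
    (hT : ∀ x ∈ T, x ∈ ZZ α β e K) : T.card ≤ 10 := by
  classical
  have pos : ∀ α β : ℝ, 0 < α → 0 < β → α ^ 2 + β ^ 2 < 1 → ∀ T : Finset (ℝ × ℝ × ℝ),
      (∀ x ∈ T, x ∈ ZZ α β e K) → T.card ≤ 10 := by
    intro α β hα hβ hαβ T hT
    obtain ⟨ρ, φ, h1, h2, h3, h4, h5, h6, h7⟩ := exists_polar hα hβ.le
    rw [h5, h6] at hT
    exact card_generic_pos he0 he1 h1 (by nlinarith) (h7 hβ) h4 hK T hT
  rcases lt_or_gt_of_ne hα with ha | ha <;> rcases lt_or_gt_of_ne hβ with hb | hb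
  · exact pos (-α) (-β) (by linarith) (by linarith) (by nlinarith) T fun x hx => zz_neg (hT x hx)
  · rw [← Finset.card_image_of_injective T flip_injective]
    refine pos (-α) β (by linarith) hb (by nlinarith) _ fun y hy => ?_
    obtain ⟨x, hx, rfl⟩ := Finset.mem_image.1 hy
    have := zz_neg (zz_flip (hT x hx))
    rwa [neg_neg] at this
  · rw [← Finset.card_image_of_injective T flip_injective]
    refine pos α (-β) ha (by linarith) (by nlinarith) _ fun y hy => ?_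
    obtain ⟨x, hx, rfl⟩ := Finset.mem_image.1 hy
    exact zz_flip (hT x hx)
  · exact pos α β ha hb hαβ T hT

/-- the case `β = 0` -/
lemma card_beta_zero {e α K : ℝ} (he0 : 0 < e) (he1 : e < 1)
    (hα1 : α ^ 2 < 1) (hK : 0 < K) (T : Finset (ℝ × ℝ × ℝ))
    (hT : ∀ x ∈ T, x ∈ ZZ α 0 e K) : T.card ≤ 10 := by
  classical
  -- monotone function
  have hJ : ∀ c ∈ Icc (-1 : ℝ) 1, 0 < 1 - α ^ 2 * c ^ 2 := by
    intro c hc
    have : c ^ 2 ≤ 1 := by nlinarith [hc.1, hc.2]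
    nlinarith [sq_nonneg α, sq_nonneg c]
  have hmono : StrictMonoOn (fun c : ℝ => (1 + e * c) * (e + α ^ 2 * c) / √(1 - α ^ 2 * c ^ 2))
      (Icc (-1) 1) := by
    have hder : ∀ c ∈ Icc (-1 : ℝ) 1, ∃ d, 0 < d ∧
        HasDerivAt (fun c : ℝ => (1 + e * c) * (e + α ^ 2 * c) / √(1 - α ^ 2 * c ^ 2)) d c := by
      intro c hc
      have hid := hasDerivAt_id c
      have h1 : HasDerivAt (fun c : ℝ => (1 + e * c) * (e + α ^ 2 * c))
          (e * (e + α ^ 2 * c) + (1 + e * c) * α ^ 2) c := by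
        have := ((hid.const_mul e).const_add 1).mul ((hid.const_mul (α ^ 2)).const_add e)
        exact this.congr_deriv (by simp)
      have h2 : HasDerivAt (fun c : ℝ => 1 - α ^ 2 * c ^ 2) (-(2 * α ^ 2 * c)) c := by
        have := ((hid.pow 2).const_mul (α ^ 2)).const_sub 1
        exact this.congr_deriv (by simp; ring)
      have h3 := hJ c hc
      have h4 : 0 < √(1 - α ^ 2 * c ^ 2) := sqrt_pos.2 h3
      have h5 : √(1 - α ^ 2 * c ^ 2) ^ 2 = 1 - α ^ 2 * c ^ 2 := sq_sqrt h3.le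
      refine ⟨(α ^ 2 + e ^ 2 + 3 * e * α ^ 2 * c - e * α ^ 4 * c ^ 3) /
        ((1 - α ^ 2 * c ^ 2) * √(1 - α ^ 2 * c ^ 2)), ?_, ?_⟩
      · refine div_pos ?_ (by positivity)
        rcases le_or_gt 0 c with h | h
        · have : 0 ≤ e * α ^ 2 * c * (3 - α ^ 2 * c ^ 2) := by
            have : 0 ≤ 3 - α ^ 2 * c ^ 2 := by linarith
            positivity
          nlinarith [sq_nonneg α, sq_nonneg e]
        · have h6 : α ^ 2 + e ^ 2 + 3 * e * α ^ 2 * c - e * α ^ 4 * c ^ 3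
              = (e + α ^ 2 * c) ^ 2 + α ^ 2 * ((1 + e * c) * (1 - α ^ 2 * c ^ 2)) := by ring
          rw [h6]
          have h7 : 0 < 1 + e * c := by nlinarith [hc.1]
          rcases eq_or_ne α 0 with h8 | h8
          · rw [h8]; simp; positivity
          · have : 0 < α ^ 2 * ((1 + e * c) * (1 - α ^ 2 * c ^ 2)) := by positivity
            have := sq_nonneg (e + α ^ 2 * c)
            linarith
      · refine (h1.div (h2.sqrt h3.ne') h4.ne').congr_deriv ?_
        have key : α ^ 2 + e ^ 2 + 3 * e * α ^ 2 * c - e * α ^ 4 * c ^ 3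
            = (e * (e + α ^ 2 * c) + (1 + e * c) * α ^ 2) * (1 - α ^ 2 * c ^ 2)
              + (1 + e * c) * (e + α ^ 2 * c) * (α ^ 2 * c) := by ring
        rw [key]
        generalize √(1 - α ^ 2 * c ^ 2) = k at *
        rw [← h5]
        field_simp
        ring
    refine strictMonoOn_of_deriv_pos (convex_Icc _ _) ?_ ?_
    · intro c hc
      obtain ⟨d, -, hd⟩ := hder c hc
      exact hd.continuousAt.continuousWithinAt
    · rw [interior_Icc]
      intro c hc
      obtain ⟨d, hd0, hd⟩ := hder c (Ioo_subset_Icc_self hc)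
      rw [hd.deriv]; exact hd0
  have hval : ∀ x ∈ T, x.2.1 ≠ 0 → (0 < x.2.2 →
      (1 + e * x.1) * (e + α ^ 2 * x.1) / √(1 - α ^ 2 * x.1 ^ 2) = K) ∧ (x.2.2 < 0 →
      (1 + e * x.1) * (e + α ^ 2 * x.1) / √(1 - α ^ 2 * x.1 ^ 2) = -K) := by
    intro x hx hs0
    obtain ⟨h1, h2, h3, h4⟩ := hT x hx
    have h5 : (1 + e * x.1) * (e + α ^ 2 * x.1) = K * x.2.2 := by
      have : ((1 + e * x.1) * (e + α ^ 2 * x.1)) * x.2.1 = (K * x.2.2) * x.2.1 := by
        rw [← h4]; ring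
      exact mul_right_cancel₀ hs0 this
    have h6 : 1 - α ^ 2 * x.1 ^ 2 = x.2.2 ^ 2 := by rw [h2]; ring
    constructor
    · intro h
      rw [h5, h6, sqrt_sq h.le]
      field_simp
    · intro h
      rw [h5, h6, sqrt_sq_eq_abs, abs_of_neg h]
      field_simp
  let κ : ℝ × ℝ × ℝ → Bool × Bool × Bool := fun x =>
    (decide (x.2.1 = 0), if x.2.1 = 0 then decide (0 < x.1) else decide (0 < x.2.1),
      decide (0 < x.2.2))
  have hinj : Set.InjOn κ T := by
    intro x hx y hy hxy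
    obtain ⟨x1, x2, x3, x4⟩ := hT x hx
    obtain ⟨y1, y2, y3, y4⟩ := hT y hy
    simp only [κ, Prod.mk.injEq, decide_eq_decide] at hxy
    obtain ⟨k1, k2, k3⟩ := hxy
    by_cases hs : x.2.1 = 0
    · have hs' := k1.1 hs
      rw [if_pos hs, if_pos hs', decide_eq_decide] at k2
      have hx2 : x.1 ^ 2 = 1 := by rw [hs] at x1; linarith
      have hy2 : y.1 ^ 2 = 1 := by rw [hs'] at y1; linarith
      have e1 : x.1 = y.1 := by
        have hx0 : x.1 ≠ 0 := by intro h; rw [h] at hx2; norm_num at hx2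
        have hy0 : y.1 ≠ 0 := by intro h; rw [h] at hy2; norm_num at hy2
        rcases lt_or_gt_of_ne hx0 with h | h
        · have h' : y.1 < 0 := by
            rcases lt_or_gt_of_ne hy0 with h' | h'
            · exact h'
            · exact absurd (k2.2 h') (by linarith)
          exact eq_of_sq_eq_neg (by rw [hx2, hy2]) h h'
        · exact eq_of_sq_eq_pos (by rw [hx2, hy2]) h (k2.1 h)
      have e3 : x.2.2 = y.2.2 := by
        rcases lt_or_gt_of_ne x3 with h | h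
        · have h' : y.2.2 < 0 := by
            rcases lt_or_gt_of_ne y3 with h' | h'
            · exact h'
            · exact absurd (k3.2 h') (by linarith)
          exact eq_of_sq_eq_neg (by rw [x2, y2, e1, hs, hs']) h h'
        · exact eq_of_sq_eq_pos (by rw [x2, y2, e1, hs, hs']) h (k3.1 h)
      exact Prod.ext e1 (Prod.ext (by rw [hs, hs']) e3)
    · have hs' : y.2.1 ≠ 0 := fun h => hs (k1.2 h)
      rw [if_neg hs, if_neg hs', decide_eq_decide] at k2
      have cx := circle_c_mem x1 hs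
      have cy := circle_c_mem y1 hs'
      have vx := hval x hx hs
      have vy := hval y hy hs'
      have e1 : x.1 = y.1 := by
        refine hmono.injOn ⟨cx.1.le, cx.2.le⟩ ⟨cy.1.le, cy.2.le⟩ ?_
        rcases lt_or_gt_of_ne x3 with h | h
        · have h' : y.2.2 < 0 := by
            rcases lt_or_gt_of_ne y3 with h' | h'
            · exact h'
            · exact absurd (k3.2 h') (by linarith)
          rw [vx.2 h, vy.2 h']
        · rw [vx.1 h, vy.1 (k3.1 h)]
      have e2 : x.2.1 = y.2.1 := by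
        rcases lt_or_gt_of_ne hs with h | h
        · have h' : y.2.1 < 0 := by
            rcases lt_or_gt_of_ne hs' with h' | h'
            · exact h'
            · exact absurd (k2.2 h') (by linarith)
          exact eq_of_sq_eq_neg (by rw [e1] at x1; linarith) h h'
        · exact eq_of_sq_eq_pos (by rw [e1] at x1; linarith) h (k2.1 h)
      have e3 : x.2.2 = y.2.2 := by
        rcases lt_or_gt_of_ne x3 with h | h
        · have h' : y.2.2 < 0 := by
            rcases lt_or_gt_of_ne y3 with h' | h'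
            · exact h'
            · exact absurd (k3.2 h') (by linarith)
          exact eq_of_sq_eq_neg (by rw [x2, y2, e1, e2]) h h'
        · exact eq_of_sq_eq_pos (by rw [x2, y2, e1, e2]) h (k3.1 h)
      exact Prod.ext e1 (Prod.ext e2 e3)
  have hcard : T.card ≤ (Finset.univ : Finset (Bool × Bool × Bool)).card :=
    Finset.card_le_card_of_injOn κ (fun _ _ => Finset.mem_coe.2 (Finset.mem_univ _)) hinj
  have : (Finset.univ : Finset (Bool × Bool × Bool)).card = 8 := by decide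
  omega

/-- a quartic with a root below `-1` : the case `α = 0`, number of values of `c` -/
lemma alpha_zero_c {e β K : ℝ} (he0 : 0 < e) (he1 : e < 1) (hβ : β ≠ 0) (hβ1 : β ^ 2 < 1)
    (hK : 0 < K) (T : Finset ℝ) (hT : ∀ c ∈ T, -1 < c ∧ ∃ l : ℝ,
      l ^ 2 = 1 - β ^ 2 + β ^ 2 * c ^ 2 ∧ (1 + e * c) * (e * (1 - β ^ 2) - β ^ 2 * c) = K * l) :
    T.card ≤ 3 := by
  classical
  set ν := 1 - β ^ 2 with hν
  have hν0 : 0 < ν := by linarith
  have hb : 0 < β ^ 2 := by positivity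
  let P : ℝ → ℝ := fun c => ((1 + e * c) * (e * ν - β ^ 2 * c)) ^ 2 - K ^ 2 * (ν + β ^ 2 * c ^ 2)
  have hPz : ∀ c ∈ T, P c = 0 := by
    intro c hc
    obtain ⟨-, l, h1, h2⟩ := hT c hc
    simp only [P]
    rw [h2, ← h1]; ring
  have hPcont : Continuous P := by fun_prop
  have hPneg : P (-1 / e) < 0 := by
    have : P (-1 / e) = -(K ^ 2 * (ν + β ^ 2 * (-1 / e) ^ 2)) := by
      simp only [P]; field_simp; ring
    rw [this]
    have : 0 < K ^ 2 * (ν + β ^ 2 * (-1 / e) ^ 2) := by positivity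
    linarith
  obtain ⟨M, hM1, hM2⟩ : ∃ M : ℝ, M < -1 / e ∧ 0 < P M := by
    refine ⟨-((K / β ^ 2 + 2) / e), ?_, ?_⟩
    · rw [neg_div, neg_lt_neg_iff]
      refine (div_lt_div_iff_of_pos_right he0).2 ?_
      have : 0 < K / β ^ 2 := by positivity
      linarith
    · set m := (K / β ^ 2 + 2) / e with hm
      have hk : 0 < K / β ^ 2 := by positivity
      have hem : e * m = K / β ^ 2 + 2 := by rw [hm]; field_simp
      have hm1 : 1 < m := by
        by_contra h
        push Not at h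
        nlinarith
      have h1 : (1 + e * (-m)) = -(K / β ^ 2 + 1) := by linarith
      have h2 : 0 < K / β ^ 2 + 1 := by linarith
      have h3 : K * m ≤ (K / β ^ 2 + 1) * (e * ν + β ^ 2 * m) - β ^ 2 * m := by
        have : (K / β ^ 2 + 1) * (e * ν + β ^ 2 * m) - β ^ 2 * m
            = K * m + (K / β ^ 2 + 1) * (e * ν) := by
          field_simp; ring
        rw [this]
        have : 0 < (K / β ^ 2 + 1) * (e * ν) := by positivity
        linarith
      have h4 : K * m < (K / β ^ 2 + 1) * (e * ν + β ^ 2 * m) := by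
        have : 0 < β ^ 2 * m := by positivity
        linarith
      have h5 : (K * m) ^ 2 < ((K / β ^ 2 + 1) * (e * ν + β ^ 2 * m)) ^ 2 :=
        pow_lt_pow_left₀ h4 (by positivity) two_ne_zero
      have h6 : ν + β ^ 2 * m ^ 2 ≤ m ^ 2 := by
        have : 1 ≤ m ^ 2 := by nlinarith
        rw [hν]; nlinarith
      have h7 : P (-m) = ((K / β ^ 2 + 1) * (e * ν + β ^ 2 * m)) ^ 2
          - K ^ 2 * (ν + β ^ 2 * m ^ 2) := by
        simp only [P]; rw [h1]; ring
      rw [h7]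
      have h8 : K ^ 2 * (ν + β ^ 2 * m ^ 2) ≤ (K * m) ^ 2 := by
        rw [mul_pow]; exact mul_le_mul_of_nonneg_left h6 (sq_nonneg K)
      linarith
  obtain ⟨u, hu, hu0⟩ := intermediate_value_Ioo' hM1.le hPcont.continuousOn ⟨hPneg, hM2⟩
  have hu1 : u < -1 := by
    have h1 : u < -1 / e := hu.2
    have h2 : -1 / e < -1 := by
      rw [div_lt_iff₀ he0]; linarith
    linarith
  have hun : u ∉ T := fun h => by linarith [(hT u h).1]
  have hform : ∀ t, P t = (e ^ 2 * β ^ 4) * t ^ 4 + (2 * e * β ^ 2 * (β ^ 2 - e ^ 2 * ν)) * t ^ 3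
      + ((β ^ 2 - e ^ 2 * ν) ^ 2 - 2 * (e ^ 2 * β ^ 2 * ν) - K ^ 2 * β ^ 2) * t ^ 2
      + (-2 * e * ν * (β ^ 2 - e ^ 2 * ν)) * t + (e ^ 2 * ν ^ 2 - K ^ 2 * ν) := by
    intro t; simp only [P]; ring
  have h := quartic_card (p4 := e ^ 2 * β ^ 4) (p3 := 2 * e * β ^ 2 * (β ^ 2 - e ^ 2 * ν))
    (p2 := (β ^ 2 - e ^ 2 * ν) ^ 2 - 2 * (e ^ 2 * β ^ 2 * ν) - K ^ 2 * β ^ 2)
    (p1 := -2 * e * ν * (β ^ 2 - e ^ 2 * ν)) (p0 := e ^ 2 * ν ^ 2 - K ^ 2 * ν)
    ⟨-1 / e, by rw [← hform]; exact hPneg.ne⟩ (insert u T) (by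
      intro t ht
      rw [← hform]
      rcases Finset.mem_insert.1 ht with rfl | ht
      · exact hu0
      · exact hPz t ht)
  rw [Finset.card_insert_of_notMem hun] at h
  omega

/-- the case `α = 0`, `0 < β² < 1` -/
lemma card_alpha_zero {e β K : ℝ} (he0 : 0 < e) (he1 : e < 1) (hβ : β ≠ 0) (hβ1 : β ^ 2 < 1)
    (hK : 0 < K) (T : Finset (ℝ × ℝ × ℝ)) (hT : ∀ x ∈ T, x ∈ ZZ 0 β e K) : T.card ≤ 10 := by
  classical
  have heq : ∀ x ∈ T, x.2.1 ≠ 0 → x.2.2 ^ 2 = 1 - β ^ 2 + β ^ 2 * x.1 ^ 2 ∧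
      (1 + e * x.1) * (e * (1 - β ^ 2) - β ^ 2 * x.1) = K * x.2.2 := by
    intro x hx hs
    obtain ⟨h1, h2, h3, h4⟩ := hT x hx
    constructor
    · rw [h2, show x.1 ^ 2 = 1 - x.2.1 ^ 2 by linarith]; ring
    · have : ((1 + e * x.1) * (e * (1 - β ^ 2) - β ^ 2 * x.1)) * x.2.1
          = (K * x.2.2) * x.2.1 := by
        rw [← h4]; ring
      exact mul_right_cancel₀ hs this
  set T0 := T.filter fun x => x.2.1 = 0 with hT0
  set T1 := T.filter fun x => 0 < x.2.1 with hT1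
  set T2 := T.filter fun x => x.2.1 < 0 with hT2
  have hcov : T ⊆ T0 ∪ T1 ∪ T2 := by
    intro x hx
    simp only [Finset.mem_union, hT0, hT1, hT2, Finset.mem_filter]
    rcases lt_trichotomy x.2.1 0 with h | h | h
    · exact Or.inr ⟨hx, h⟩
    · exact Or.inl (Or.inl ⟨hx, h⟩)
    · exact Or.inl (Or.inr ⟨hx, h⟩)
  have c0 : T0.card ≤ 4 := by
    let κ : ℝ × ℝ × ℝ → Bool × Bool := fun x => (decide (0 < x.1), decide (0 < x.2.2))
    have hinj : Set.InjOn κ T0 := by
      intro x hx y hy hxy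
      obtain ⟨hx, hs⟩ := Finset.mem_filter.1 hx
      obtain ⟨hy, hs'⟩ := Finset.mem_filter.1 hy
      obtain ⟨x1, x2, x3, x4⟩ := hT x hx
      obtain ⟨y1, y2, y3, y4⟩ := hT y hy
      simp only [κ, Prod.mk.injEq, decide_eq_decide] at hxy
      obtain ⟨k2, k3⟩ := hxy
      have hx2 : x.1 ^ 2 = 1 := by rw [hs] at x1; linarith
      have hy2 : y.1 ^ 2 = 1 := by rw [hs'] at y1; linarith
      have e1 : x.1 = y.1 := by
        have hx0 : x.1 ≠ 0 := by intro h; rw [h] at hx2; norm_num at hx2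
        have hy0 : y.1 ≠ 0 := by intro h; rw [h] at hy2; norm_num at hy2
        rcases lt_or_gt_of_ne hx0 with h | h
        · have h' : y.1 < 0 := by
            rcases lt_or_gt_of_ne hy0 with h' | h'
            · exact h'
            · exact absurd (k2.2 h') (by linarith)
          exact eq_of_sq_eq_neg (by rw [hx2, hy2]) h h'
        · exact eq_of_sq_eq_pos (by rw [hx2, hy2]) h (k2.1 h)
      have e3 : x.2.2 = y.2.2 := by
        rcases lt_or_gt_of_ne x3 with h | h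
        · have h' : y.2.2 < 0 := by
            rcases lt_or_gt_of_ne y3 with h' | h'
            · exact h'
            · exact absurd (k3.2 h') (by linarith)
          exact eq_of_sq_eq_neg (by rw [x2, y2, e1, hs, hs']) h h'
        · exact eq_of_sq_eq_pos (by rw [x2, y2, e1, hs, hs']) h (k3.1 h)
      exact Prod.ext e1 (Prod.ext (by rw [hs, hs']) e3)
    have hcard : T0.card ≤ (Finset.univ : Finset (Bool × Bool)).card :=
      Finset.card_le_card_of_injOn κ (fun _ _ => Finset.mem_coe.2 (Finset.mem_univ _)) hinj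
    have : (Finset.univ : Finset (Bool × Bool)).card = 4 := by decide
    omega
  have part : ∀ T' ⊆ T, (∀ x ∈ T', x.2.1 ≠ 0) → (∀ x ∈ T', ∀ y ∈ T', x.1 = y.1 → x.2.1 = y.2.1) →
      T'.card ≤ 3 := by
    intro T' hT' hs hss
    have hinj : Set.InjOn (fun x : ℝ × ℝ × ℝ => x.1) T' := by
      intro x hx y hy hxy
      simp only at hxy
      have e2 := hss x hx y hy hxy
      have a1 := (heq x (hT' hx) (hs x hx)).2
      have a2 := (heq y (hT' hy) (hs y hy)).2
      rw [← hxy] at a2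
      have e3 : x.2.2 = y.2.2 := mul_left_cancel₀ hK.ne' (by rw [← a1, ← a2])
      exact Prod.ext hxy (Prod.ext e2 e3)
    rw [← Finset.card_image_of_injOn hinj]
    refine alpha_zero_c he0 he1 hβ hβ1 hK _ ?_
    intro c hc
    obtain ⟨x, hx, rfl⟩ := Finset.mem_image.1 hc
    obtain ⟨h1, h2⟩ := heq x (hT' hx) (hs x hx)
    exact ⟨(circle_c_mem (hT x (hT' hx)).1 (hs x hx)).1, x.2.2, h1, h2⟩
  have c1 : T1.card ≤ 3 := by
    refine part T1 (Finset.filter_subset _ _) (fun x hx => (Finset.mem_filter.1 hx).2.ne') ?_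
    intro x hx y hy hxy
    obtain ⟨hx, hs⟩ := Finset.mem_filter.1 hx
    obtain ⟨hy, hs'⟩ := Finset.mem_filter.1 hy
    have x1 := (hT x hx).1
    have y1 := (hT y hy).1
    exact eq_of_sq_eq_pos (by rw [hxy] at x1; linarith) hs hs'
  have c2 : T2.card ≤ 3 := by
    refine part T2 (Finset.filter_subset _ _) (fun x hx => (Finset.mem_filter.1 hx).2.ne) ?_
    intro x hx y hy hxy
    obtain ⟨hx, hs⟩ := Finset.mem_filter.1 hx
    obtain ⟨hy, hs'⟩ := Finset.mem_filter.1 hy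
    have x1 := (hT x hx).1
    have y1 := (hT y hy).1
    exact eq_of_sq_eq_neg (by rw [hxy] at x1; linarith) hs hs'
  have h := (Finset.card_le_card hcov).trans (Finset.card_union_le _ _)
  have h' := Finset.card_union_le T0 T1
  omega

end Pool.Agent.N657.CE
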