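import Mathlib

/-!
# Counting lemmas: Rolle and intermediate values along finite increasing sequences
-/

set_option autoImplicit false

namespace Pool.Agent.N657.CE

open Set

/-- if every interval of an increasing sequence with index in `E` contains a point of `Z`, and `Z` has
at most `m` points in `(a, b)`, then `E` has at most `m` elements. -/
lemma card_le_of_intervals {n m : ℕ} {a b : ℝ} {x : Fin (n + 1) → ℝ} (hx : StrictMono x)
    (hab : ∀ i, x i ∈ Ioo a b) (E : Finset (Fin n)) (Z : ℝ → Prop)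
    (hE : ∀ i ∈ E, ∃ y ∈ Ioo (x i.castSucc) (x i.succ), Z y)
    (hZ : ∀ T : Finset ℝ, (∀ y ∈ T, y ∈ Ioo a b ∧ Z y) → T.card ≤ m) : E.card ≤ m := by
  classical
  choose! y hy hyZ using hE
  have hinj : Set.InjOn y E := by
    intro i hi j hj hij
    have hi' := hy i hi
    have hj' := hy j hj
    rcases lt_trichotomy i j with h | h | h
    · exfalso
      have h1 : x i.succ ≤ x j.castSucc := hx.monotone (by
        rw [Fin.le_def]; simp only [Fin.val_succ, Fin.val_castSucc]; exact h)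
      have := hi'.2; have := hj'.1; rw [hij] at *; linarith
    · exact h
    · exfalso
      have h1 : x j.succ ≤ x i.castSucc := hx.monotone (by
        rw [Fin.le_def]; simp only [Fin.val_succ, Fin.val_castSucc]; exact h)
      have := hi'.1; have := hj'.2; rw [hij] at *; linarith
  rw [← Finset.card_image_of_injOn hinj]
  apply hZ
  intro z hz
  obtain ⟨i, hi, rfl⟩ := Finset.mem_image.1 hz
  exact ⟨⟨(hab _).1.trans (hy i hi).1, (hy i hi).2.trans (hab _).2⟩, hyZ i hi⟩

/-- Rolle, for several intervals. -/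
lemma card_eq_le {n m : ℕ} {a b : ℝ} {G G' : ℝ → ℝ} (hG : ∀ y ∈ Ioo a b, HasDerivAt G (G' y) y)
    (hZ : ∀ T : Finset ℝ, (∀ y ∈ T, y ∈ Ioo a b ∧ G' y = 0) → T.card ≤ m)
    {x : Fin (n + 1) → ℝ} (hx : StrictMono x) (hab : ∀ i, x i ∈ Ioo a b) (E : Finset (Fin n))
    (hE : ∀ i ∈ E, G (x i.castSucc) = G (x i.succ)) : E.card ≤ m := by
  refine card_le_of_intervals hx hab E (fun y => G' y = 0) (fun i hi => ?_) hZ
  have hlt : x i.castSucc < x i.succ := hx (Fin.castSucc_lt_succ)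
  have hsub : ∀ y ∈ Icc (x i.castSucc) (x i.succ), y ∈ Ioo a b := fun y hy =>
    ⟨(hab _).1.trans_le hy.1, hy.2.trans_lt (hab _).2⟩
  obtain ⟨c, hc, hc'⟩ := exists_hasDerivAt_eq_zero hlt
    (fun y hy => (hG y (hsub y hy)).continuousAt.continuousWithinAt) (hE i hi)
    (fun y hy => hG y (hsub y (Ioo_subset_Icc_self hy)))
  exact ⟨c, hc, hc'⟩

/-- Intermediate values, for several intervals. -/
lemma card_sign_le {n m : ℕ} {a b : ℝ} {G : ℝ → ℝ} (hG : ContinuousOn G (Ioo a b))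
    (hZ : ∀ T : Finset ℝ, (∀ y ∈ T, y ∈ Ioo a b ∧ G y = 0) → T.card ≤ m)
    {x : Fin (n + 1) → ℝ} (hx : StrictMono x) (hab : ∀ i, x i ∈ Ioo a b) (E : Finset (Fin n))
    (hE : ∀ i ∈ E, G (x i.castSucc) * G (x i.succ) < 0) : E.card ≤ m := by
  refine card_le_of_intervals hx hab E (fun y => G y = 0) (fun i hi => ?_) hZ
  have hlt : x i.castSucc < x i.succ := hx (Fin.castSucc_lt_succ)
  have hsub : ∀ y ∈ Icc (x i.castSucc) (x i.succ), y ∈ Ioo a b := fun y hy =>
    ⟨(hab _).1.trans_le hy.1, hy.2.trans_lt (hab _).2⟩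
  have hcont : ContinuousOn G (Icc (x i.castSucc) (x i.succ)) := hG.mono hsub
  rcases mul_neg_iff.1 (hE i hi) with ⟨h1, h2⟩ | ⟨h1, h2⟩
  · obtain ⟨y, hy, hy0⟩ := intermediate_value_Ioo' hlt.le hcont ⟨h2, h1⟩
    exact ⟨y, hy, hy0⟩
  · obtain ⟨y, hy, hy0⟩ := intermediate_value_Ioo hlt.le hcont ⟨h1, h2⟩
    exact ⟨y, hy, hy0⟩

/-- level sets: if the derivative has at most `m` zeros then a level set has at most `m + 1` points -/
lemma level_le {m : ℕ} {a b k : ℝ} {G G' : ℝ → ℝ} (hG : ∀ y ∈ Ioo a b, HasDerivAt G (G' y) y)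
    (hZ : ∀ T : Finset ℝ, (∀ y ∈ T, y ∈ Ioo a b ∧ G' y = 0) → T.card ≤ m)
    (T : Finset ℝ) (hT : ∀ y ∈ T, y ∈ Ioo a b ∧ G y = k) : T.card ≤ m + 1 := by
  by_contra hcon
  push Not at hcon
  obtain ⟨S, hST, hS⟩ := Finset.exists_subset_card_eq (n := m + 1 + 1) (s := T) (by omega)
  have h := card_eq_le (x := S.orderEmbOfFin hS) hG hZ (S.orderEmbOfFin hS).strictMono
    (fun i => (hT _ (hST (S.orderEmbOfFin_mem hS i))).1) Finset.univ (fun i _ => by
      rw [(hT _ (hST (S.orderEmbOfFin_mem hS _))).2, (hT _ (hST (S.orderEmbOfFin_mem hS _))).2])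
  simp at h

/-- If `G` has at most `m0` zeros and at most `m1` critical points then `G = ± K` has at most
`m0 + m1 + 1` solutions. -/
lemma pm_le {m0 m1 : ℕ} {a b K : ℝ} (hK : 0 < K) {G G' : ℝ → ℝ}
    (hG : ∀ y ∈ Ioo a b, HasDerivAt G (G' y) y)
    (hZ1 : ∀ T : Finset ℝ, (∀ y ∈ T, y ∈ Ioo a b ∧ G' y = 0) → T.card ≤ m1)
    (hZ0 : ∀ T : Finset ℝ, (∀ y ∈ T, y ∈ Ioo a b ∧ G y = 0) → T.card ≤ m0)
    (T : Finset ℝ) (hT : ∀ y ∈ T, y ∈ Ioo a b ∧ (G y = K ∨ G y = -K)) : T.card ≤ m0 + m1 + 1 := by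
  by_contra hcon
  push Not at hcon
  obtain ⟨S, hST, hS⟩ := Finset.exists_subset_card_eq (n := m0 + m1 + 1 + 1) (s := T) (by omega)
  set s := S.orderEmbOfFin hS with hs
  have hmem : ∀ i, s i ∈ Ioo a b := fun i => (hT _ (hST (S.orderEmbOfFin_mem hS i))).1
  have hval : ∀ i, G (s i) = K ∨ G (s i) = -K := fun i => (hT _ (hST (S.orderEmbOfFin_mem hS i))).2
  have hsm : StrictMono s := s.strictMono
  have hcont : ContinuousOn G (Ioo a b) := fun y hy => (hG y hy).continuousAt.continuousWithinAt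
  classical
  have e0 := card_sign_le hcont hZ0 hsm hmem
    (Finset.univ.filter fun i : Fin (m0 + m1 + 1) => G (s i.castSucc) * G (s i.succ) < 0)
    (fun i hi => (Finset.mem_filter.1 hi).2)
  have e1 := card_eq_le hG hZ1 hsm hmem
    (Finset.univ.filter fun i : Fin (m0 + m1 + 1) => G (s i.castSucc) = G (s i.succ))
    (fun i hi => (Finset.mem_filter.1 hi).2)
  have hun : (Finset.univ : Finset (Fin (m0 + m1 + 1))) ⊆
      (Finset.univ.filter fun i : Fin (m0 + m1 + 1) => G (s i.castSucc) * G (s i.succ) < 0) ∪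
      (Finset.univ.filter fun i : Fin (m0 + m1 + 1) => G (s i.castSucc) = G (s i.succ)) := by
    intro i _
    rw [Finset.mem_union, Finset.mem_filter, Finset.mem_filter]
    rcases hval i.castSucc with h1 | h1 <;> rcases hval i.succ with h2 | h2
    · right; exact ⟨Finset.mem_univ _, by rw [h1, h2]⟩
    · left; exact ⟨Finset.mem_univ _, by rw [h1, h2]; nlinarith⟩
    · left; exact ⟨Finset.mem_univ _, by rw [h1, h2]; nlinarith⟩
    · right; exact ⟨Finset.mem_univ _, by rw [h1, h2]⟩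
  have h := (Finset.card_le_card hun).trans (Finset.card_union_le _ _)
  simp at h
  omega

/-- The combinatorial lemma for the lower
half: `G` is positive near both ends, has at most three zeros and at most three critical points; then
`G = ± K` has at most six solutions. -/
lemma six_le {a b K : ℝ} (hK : 0 < K) {G G' : ℝ → ℝ} (hG : ∀ y ∈ Ioo a b, HasDerivAt G (G' y) y)
    (hZ1 : ∀ T : Finset ℝ, (∀ y ∈ T, y ∈ Ioo a b ∧ G' y = 0) → T.card ≤ 3)
    (hZ0 : ∀ T : Finset ℝ, (∀ y ∈ T, y ∈ Ioo a b ∧ G y = 0) → T.card ≤ 3)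
    (hl : ∀ y ∈ Ioo a b, ∃ z ∈ Ioo a y, 0 < G z) (hr : ∀ y ∈ Ioo a b, ∃ z ∈ Ioo y b, 0 < G z)
    (T : Finset ℝ) (hT : ∀ y ∈ T, y ∈ Ioo a b ∧ (G y = K ∨ G y = -K)) : T.card ≤ 6 := by
  by_contra hcon
  push Not at hcon
  obtain ⟨S, hST, hS⟩ := Finset.exists_subset_card_eq (n := 7) (s := T) (by omega)
  set s := S.orderEmbOfFin hS with hs
  have hmem : ∀ i, s i ∈ Ioo a b := fun i => (hT _ (hST (S.orderEmbOfFin_mem hS i))).1
  have hval : ∀ i, G (s i) = K ∨ G (s i) = -K := fun i => (hT _ (hST (S.orderEmbOfFin_mem hS i))).2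
  have hsm : StrictMono s := s.strictMono
  obtain ⟨p, hp, hGp⟩ := hl _ (hmem 0)
  obtain ⟨q, hq, hGq⟩ := hr _ (hmem 6)
  have h01 : s 0 < s 1 := hsm (by decide)
  have h12 : s 1 < s 2 := hsm (by decide)
  have h23 : s 2 < s 3 := hsm (by decide)
  have h34 : s 3 < s 4 := hsm (by decide)
  have h45 : s 4 < s 5 := hsm (by decide)
  have h56 : s 5 < s 6 := hsm (by decide)
  let x : Fin 9 → ℝ := ![p, s 0, s 1, s 2, s 3, s 4, s 5, s 6, q]
  have hx : StrictMono x := by
    rw [Fin.strictMono_iff_lt_succ]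
    intro i
    fin_cases i
    · exact hp.2
    · exact h01
    · exact h12
    · exact h23
    · exact h34
    · exact h45
    · exact h56
    · exact hq.1
  have hxab : ∀ i, x i ∈ Ioo a b := by
    intro i
    fin_cases i
    · exact ⟨hp.1, hp.2.trans (hmem 0).2⟩
    · exact hmem 0
    · exact hmem 1
    · exact hmem 2
    · exact hmem 3
    · exact hmem 4
    · exact hmem 5
    · exact hmem 6
    · exact ⟨(hmem 6).1.trans hq.1, hq.2⟩
  have hcont : ContinuousOn G (Ioo a b) := fun y hy => (hG y hy).continuousAt.continuousWithinAt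
  classical
  have e0 := card_sign_le hcont hZ0 hx hxab
    (Finset.univ.filter fun i : Fin 8 => G (x i.castSucc) * G (x i.succ) < 0)
    (fun i hi => (Finset.mem_filter.1 hi).2)
  have e1 := card_eq_le hG hZ1 hx hxab
    (Finset.univ.filter fun i : Fin 8 => G (x i.castSucc) = G (x i.succ))
    (fun i hi => (Finset.mem_filter.1 hi).2)
  rw [Finset.card_filter] at e0 e1
  simp only [Fin.sum_univ_eight] at e0 e1
  obtain ⟨ε, hε⟩ : ∃ ε : Fin 7 → Bool, ∀ i, G (s i) = if ε i then K else -K := by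
    refine ⟨fun i => decide (G (s i) = K), fun i => ?_⟩
    rcases hval i with h | h
    · simp [h]
    · have : ¬ (-K = K) := by intro h'; linarith
      simp [h, this]
  have k1 : ∀ i j, (G (s i) * G (s j) < 0) ↔ (ε i ≠ ε j) := by
    intro i j
    rw [hε i, hε j]
    cases ε i <;> cases ε j <;> simp <;> nlinarith
  have k2 : ∀ i j, (G (s i) = G (s j)) ↔ (ε i = ε j) := by
    intro i j
    rw [hε i, hε j]
    have h1 : ¬ (-K = K) := by intro h'; linarith
    have h2 : ¬ (K = -K) := by intro h'; linarith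
    cases ε i <;> cases ε j <;> simp [h1, h2]
  have k3 : ∀ i, (G p * G (s i) < 0) ↔ (ε i = false) := by
    intro i
    rw [hε i]
    cases ε i <;> simp <;> nlinarith
  have k4 : ∀ i, (G (s i) * G q < 0) ↔ (ε i = false) := by
    intro i
    rw [hε i]
    cases ε i <;> simp <;> nlinarith
  have e0' : (if G p * G (s 0) < 0 then 1 else 0) + (if G (s 0) * G (s 1) < 0 then 1 else 0)
      + (if G (s 1) * G (s 2) < 0 then 1 else 0) + (if G (s 2) * G (s 3) < 0 then 1 else 0)
      + (if G (s 3) * G (s 4) < 0 then 1 else 0) + (if G (s 4) * G (s 5) < 0 then 1 else 0)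
      + (if G (s 5) * G (s 6) < 0 then 1 else 0) + (if G (s 6) * G q < 0 then 1 else 0) ≤ 3 := e0
  have e1'' : (if G p = G (s 0) then 1 else 0) + (if G (s 0) = G (s 1) then 1 else 0)
      + (if G (s 1) = G (s 2) then 1 else 0) + (if G (s 2) = G (s 3) then 1 else 0)
      + (if G (s 3) = G (s 4) then 1 else 0) + (if G (s 4) = G (s 5) then 1 else 0)
      + (if G (s 5) = G (s 6) then 1 else 0) + (if G (s 6) = G q then 1 else 0) ≤ 3 := e1
  have e1' : (if G (s 0) = G (s 1) then 1 else 0)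
      + (if G (s 1) = G (s 2) then 1 else 0) + (if G (s 2) = G (s 3) then 1 else 0)
      + (if G (s 3) = G (s 4) then 1 else 0) + (if G (s 4) = G (s 5) then 1 else 0)
      + (if G (s 5) = G (s 6) then 1 else 0) ≤ 3 := by
    have z1 := Nat.zero_le (if G p = G (s 0) then 1 else 0)
    have z2 := Nat.zero_le (if G (s 6) = G q then 1 else 0)
    linarith
  simp only [k1, k3, k4] at e0'
  simp only [k2] at e1'
  clear e0 e1 e1'' k1 k2 k3 k4 hε
  generalize ε 0 = b0 at e0' e1'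
  generalize ε 1 = b1 at e0' e1'
  generalize ε 2 = b2 at e0' e1'
  generalize ε 3 = b3 at e0' e1'
  generalize ε 4 = b4 at e0' e1'
  generalize ε 5 = b5 at e0' e1'
  generalize ε 6 = b6 at e0' e1'
  revert b0 b1 b2 b3 b4 b5 b6
  decide

/-- a nonzero real polynomial of degree at most four has at most four roots -/
lemma quartic_card {p0 p1 p2 p3 p4 : ℝ}
    (h : ∃ t : ℝ, p4 * t ^ 4 + p3 * t ^ 3 + p2 * t ^ 2 + p1 * t + p0 ≠ 0)
    (T : Finset ℝ) (hT : ∀ t ∈ T, p4 * t ^ 4 + p3 * t ^ 3 + p2 * t ^ 2 + p1 * t + p0 = 0) :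
    T.card ≤ 4 := by
  classical
  set p : Polynomial ℝ := Polynomial.C p4 * Polynomial.X ^ 4 + Polynomial.C p3 * Polynomial.X ^ 3
    + Polynomial.C p2 * Polynomial.X ^ 2 + Polynomial.C p1 * Polynomial.X + Polynomial.C p0 with hp
  have hev : ∀ t, p.eval t = p4 * t ^ 4 + p3 * t ^ 3 + p2 * t ^ 2 + p1 * t + p0 := by
    intro t; simp [hp]
  have hp0 : p ≠ 0 := by
    obtain ⟨t, ht⟩ := h
    intro h0
    apply ht
    rw [← hev, h0, Polynomial.eval_zero]
  have hdeg : p.natDegree ≤ 4 := by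
    rw [hp]; compute_degree
  have hsub : T.val ⊆ p.roots := by
    intro t ht
    rw [Polynomial.mem_roots hp0, Polynomial.IsRoot.def, hev]
    exact hT t ht
  exact (Polynomial.card_le_degree_of_subset_roots hsub).trans hdeg

end Pool.Agent.N657.CE
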