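import Mathlib

/-!
# Critical points of the distance from a circle to a confocal ellipse: derivative identities

The ellipse has a focus at the centre of the circle, eccentricity `e`; `f` is the true anomaly.
`ze` is the component of the unit vector towards the point of the ellipse along the unit normal of the
plane of the circle.  `GG` is (up to a constant factor) the reciprocal of the signed radius for which the
point of the ellipse belongs to a stationary pair.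
-/

set_option autoImplicit false

namespace Pool.Agent.N657.CE

open Real

/-- the component of the unit vector of angle `f` along the normal of the circle -/
noncomputable def ze (α β f : ℝ) : ℝ := α * cos f + β * sin f
/-- derivative of `ze` -/
noncomputable def z1 (α β f : ℝ) : ℝ := β * cos f - α * sin f
/-- `p / r` on the ellipse -/
noncomputable def TT (e f : ℝ) : ℝ := 1 + e * cos f
/-- square of the relative distance to the axis of the circle -/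
noncomputable def JJ (α β f : ℝ) : ℝ := 1 - ze α β f ^ 2
/-- inner product of the projections of position and velocity -/
noncomputable def AA (e α β f : ℝ) : ℝ :=
  e * sin f - ze α β f * z1 α β f - e * β * ze α β f
/-- numerator of the derivative of `GG` -/
noncomputable def DD (e α β f : ℝ) : ℝ :=
  sin f * TT e f ^ 2 * (ze α β f ^ 2 - z1 α β f ^ 2)
    - sin f * ze α β f ^ 4 * (1 + 2 * e * cos f + e ^ 2)
    + (e + cos f) * TT e f * ze α β f * z1 α β f * JJ α β f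
    - e ^ 2 * sin f ^ 3 * (1 - 2 * ze α β f ^ 2)
/-- slope function on the lower half -/
noncomputable def mu (α β f : ℝ) : ℝ :=
  sin f * (1 + cos f ^ 2) * (ze α β f ^ 2 - z1 α β f ^ 2)
    + cos f * (3 * cos f ^ 2 - 1) * ze α β f * z1 α β f
/-- the function whose level sets `± K` are the stationary pairs -/
noncomputable def GG (e α β f : ℝ) : ℝ := TT e f * AA e α β f / (√(JJ α β f) * sin f)

lemma hasDerivAt_ze (α β f : ℝ) : HasDerivAt (ze α β) (z1 α β f) f := by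
  unfold ze z1
  exact (((hasDerivAt_cos f).const_mul α).add ((hasDerivAt_sin f).const_mul β)).congr_deriv
    (by ring)

lemma hasDerivAt_z1 (α β f : ℝ) : HasDerivAt (z1 α β) (-ze α β f) f := by
  unfold ze z1
  exact (((hasDerivAt_cos f).const_mul β).sub ((hasDerivAt_sin f).const_mul α)).congr_deriv
    (by ring)

lemma hasDerivAt_TT (e f : ℝ) : HasDerivAt (TT e) (-(e * sin f)) f := by
  unfold TT
  exact (((hasDerivAt_cos f).const_mul e).const_add 1).congr_deriv (by ring)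

lemma hasDerivAt_JJ (α β f : ℝ) : HasDerivAt (JJ α β) (-(2 * ze α β f * z1 α β f)) f := by
  unfold JJ
  exact (((hasDerivAt_ze α β f).pow 2).const_sub 1).congr_deriv (by simp)

lemma hasDerivAt_AA (e α β f : ℝ) : HasDerivAt (AA e α β)
    (e * cos f - (z1 α β f * z1 α β f - ze α β f * ze α β f) - e * β * z1 α β f) f := by
  unfold AA
  exact ((((hasDerivAt_sin f).const_mul e).sub
    ((hasDerivAt_ze α β f).mul (hasDerivAt_z1 α β f))).sub
    ((hasDerivAt_ze α β f).const_mul (e * β))).congr_deriv (by ring)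

lemma hasDerivAt_mu (α β f : ℝ) :
    HasDerivAt (mu α β) (5 * sin f ^ 3 * ze α β f * z1 α β f) f := by
  have hc := hasDerivAt_cos f
  have hs := hasDerivAt_sin f
  have hz := hasDerivAt_ze α β f
  have hz1 := hasDerivAt_z1 α β f
  have h := ((hs.mul ((hc.pow 2).const_add 1)).mul ((hz.pow 2).sub (hz1.pow 2))).add
    (((hc.mul (((hc.pow 2).const_mul 3).sub_const 1)).mul hz).mul hz1)
  have hsc : sin f ^ 2 + cos f ^ 2 = 1 := sin_sq_add_cos_sq f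
  refine (h.congr_deriv ?_)
  simp only [Pi.mul_apply, Pi.pow_apply, Pi.sub_apply]
  push_cast
  unfold ze z1
  generalize cos f = c at *
  generalize sin f = s at *
  linear_combination ((-2)*α^2*c^3 + 7*α^2*c*s^2 + (-13)*α*β*c^2*s + 5*α*β*s^3 + 2*β^2*c^3 + (-7)*β^2*c*s^2) * hsc

/-- the derivative of `DD`, as a formal expression -/
lemma hasDerivAt_DD (e α β f : ℝ) : ∃ D' : ℝ, HasDerivAt (DD e α β) D' f ∧
    D' * (sin f * TT e f) - 3 * DD e α β f * (cos f * TT e f - e * sin f ^ 2)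
      = -3 * (α * β * JJ α β f * TT e f ^ 3 + e * sin f ^ 3 * AA e α β f ^ 2) ∧
    D' * sin f - 3 * DD e α β f * cos f
      = -3 * (JJ α β f * ((1 + e ^ 2) * (α * β) + e * mu α β f)) := by
  have hc := hasDerivAt_cos f
  have hs := hasDerivAt_sin f
  have hz := hasDerivAt_ze α β f
  have hz1 := hasDerivAt_z1 α β f
  have hT := hasDerivAt_TT e f
  have hJ := hasDerivAt_JJ α β f
  have h := ((((hs.mul (hT.pow 2)).mul ((hz.pow 2).sub (hz1.pow 2))).sub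
    ((hs.mul (hz.pow 4)).mul (((hc.const_mul (2 * e)).const_add 1).add_const (e ^ 2)))).add
    (((((hc.const_add e).mul hT).mul hz).mul hz1).mul hJ)).sub
    (((hs.pow 3).const_mul (e ^ 2)).mul (((hz.pow 2).const_mul 2).const_sub 1))
  have hsc : sin f ^ 2 + cos f ^ 2 = 1 := sin_sq_add_cos_sq f
  refine ⟨_, h, ?_, ?_⟩
  · simp only [Pi.mul_apply, Pi.pow_apply, Pi.sub_apply]
    push_cast
    unfold DD AA JJ TT ze z1
    generalize cos f = c at *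
    generalize sin f = s at *
    linear_combination (3*e^3*α^3*β*c^5 + 6*e^3*α^2*β^2*c^4*s + (-3)*e^3*α^2*β^2*c^2*s^3 + (-2)*e^3*α^2*c^4*s
       + e^3*α^2*c^2*s^3 + 3*e^3*α*β^3*c^3*s^2 + (-6)*e^3*α*β^3*c*s^4 + (-4)*e^3*α*β*c^3*s^2
       + (-3)*e^3*α*β*c^3 + 8*e^3*α*β*c*s^4 + (-3)*e^3*β^4*s^5 + 2*e^3*β^2*c^4*s
       + (-1)*e^3*β^2*c^2*s^3 + 6*e^3*β^2*s^5 + 2*e^2*α^4*c^5*s + 3*e^2*α^3*β*c^6
       + 5*e^2*α^3*β*c^4*s^2 + 9*e^2*α^3*β*c^4 + 6*e^2*α^2*β^2*c^5*s + 18*e^2*α^2*β^2*c^3*s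
       + (-4)*e^2*α^2*c^3*s + 3*e^2*α*β^3*c^4*s^2 + (-7)*e^2*α*β^3*c^2*s^4
       + 9*e^2*α*β^3*c^2*s^2 + (-3)*e^2*α*β*c^4 + (-9)*e^2*α*β*c^2*s^2 + (-9)*e^2*α*β*c^2
       + 2*e^2*α*β*s^4 + (-4)*e^2*β^4*c*s^5 + 4*e^2*β^2*c^3*s + 2*e*α^4*c^4*s
       + 3*e*α^4*c^2*s^3 + 6*e*α^3*β*c^5 + 8*e*α^3*β*c^3*s^2 + 9*e*α^3*β*c^3 + 6*e*α^3*β*c*s^4
       + 12*e*α^2*β^2*c^4*s + 9*e*α^2*β^2*c^2*s^3 + 18*e*α^2*β^2*c^2*s + 3*e*α^2*β^2*s^5
       + (-2)*e*α^2*c^2*s + (-1)*e*α^2*s^3 + 6*e*α*β^3*c^3*s^2 + 2*e*α*β^3*c*s^4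
       + 9*e*α*β^3*c*s^2 + (-6)*e*α*β*c^3 + (-8)*e*α*β*c*s^2 + (-9)*e*α*β*c + (-1)*e*β^4*s^5
       + 2*e*β^2*c^2*s + e*β^2*s^3 + 3*α^3*β*c^4 + 3*α^3*β*c^2*s^2 + 3*α^3*β*c^2
       + 6*α^2*β^2*c^3*s + 6*α^2*β^2*c*s^3 + 6*α^2*β^2*c*s + 3*α*β^3*c^2*s^2 + 3*α*β^3*s^4
       + 3*α*β^3*s^2 + (-3)*α*β*c^2 + (-3)*α*β*s^2 + (-3)*α*β) * hsc
  · simp only [Pi.mul_apply, Pi.pow_apply, Pi.sub_apply]
    push_cast
    unfold DD mu JJ TT ze z1
    generalize cos f = c at *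
    generalize sin f = s at *
    linear_combination (3*e^2*α^3*β*c^4 + 3*e^2*α^3*β*c^2*s^2 + 3*e^2*α^3*β*c^2 + 6*e^2*α^2*β^2*c^3*s
       + 6*e^2*α^2*β^2*c*s^3 + 6*e^2*α^2*β^2*c*s + (-2)*e^2*α^2*c^3*s + (-2)*e^2*α^2*c*s^3
       + 3*e^2*α*β^3*c^2*s^2 + 3*e^2*α*β^3*s^4 + 3*e^2*α*β^3*s^2 + (-4)*e^2*α*β*c^2*s^2
       + (-3)*e^2*α*β*c^2 + (-4)*e^2*α*β*s^4 + (-3)*e^2*α*β*s^2 + (-3)*e^2*α*β
       + 2*e^2*β^2*c^3*s + 2*e^2*β^2*c*s^3 + 8*e*α^4*c^4*s + (-6)*e*α^3*β*c^5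
       + 26*e*α^3*β*c^3*s^2 + (-18)*e*α^2*β^2*c^4*s + 30*e*α^2*β^2*c^2*s^3 + (-8)*e*α^2*c^2*s
       + 2*e*α^2*s^3 + (-18)*e*α*β^3*c^3*s^2 + 14*e*α*β^3*c*s^4 + 6*e*α*β*c^3
       + (-14)*e*α*β*c*s^2 + (-6)*e*β^4*c^2*s^3 + 2*e*β^4*s^5 + 8*e*β^2*c^2*s + (-2)*e*β^2*s^3
       + 3*α^3*β*c^4 + 3*α^3*β*c^2*s^2 + 3*α^3*β*c^2 + 6*α^2*β^2*c^3*s + 6*α^2*β^2*c*s^3
       + 6*α^2*β^2*c*s + 3*α*β^3*c^2*s^2 + 3*α*β^3*s^4 + 3*α*β^3*s^2 + (-3)*α*β*c^2
       + (-3)*α*β*s^2 + (-3)*α*β) * hsc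

/-- `GG' = DD / (JJ * √JJ * sin²)` -/
lemma hasDerivAt_GG (e α β f : ℝ) (hJ0 : 0 < JJ α β f) (hs0 : sin f ≠ 0) :
    HasDerivAt (GG e α β) (DD e α β f / (JJ α β f * √(JJ α β f) * sin f ^ 2)) f := by
  have hs := hasDerivAt_sin f
  have hT := hasDerivAt_TT e f
  have hJ := hasDerivAt_JJ α β f
  have hA := hasDerivAt_AA e α β f
  have hsc : sin f ^ 2 + cos f ^ 2 = 1 := sin_sq_add_cos_sq f
  have hk : 0 < √(JJ α β f) := sqrt_pos.2 hJ0
  have hk2 : √(JJ α β f) ^ 2 = JJ α β f := sq_sqrt hJ0.le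
  have h := (hT.mul hA).div ((hJ.sqrt hJ0.ne').mul hs) (mul_ne_zero hk.ne' hs0)
  refine h.congr_deriv ?_
  have key : (-(e * sin f) * AA e α β f + TT e f * (e * cos f - (z1 α β f * z1 α β f
      - ze α β f * ze α β f) - e * β * z1 α β f)) * (JJ α β f * sin f)
      - TT e f * AA e α β f * (JJ α β f * cos f - ze α β f * z1 α β f * sin f) = DD e α β f := by
    unfold DD AA JJ TT ze z1
    generalize cos f = c at *
    generalize sin f = s at *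
    linear_combination ((-1)*e^2*α^2*c^2*s + (-3)*e^2*α*β*c*s^2 + e^2*β^2*c^2*s + (-1)*e^2*β^2*s^3 + e*α^4*c^3*s
       + 3*e*α^3*β*c^2*s^2 + 3*e*α^2*β^2*c*s^3 + (-1)*e*α^2*c*s + e*α*β^3*s^4 + (-2)*e*α*β*s^2
       + e*β^2*c*s) * hsc
  simp only [Pi.mul_apply]
  rw [← key]
  generalize √(JJ α β f) = k at *
  rw [← hk2]
  field_simp
  ring

end Pool.Agent.N657.CE
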