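import Pool.Agent.N657.CE.Deriv
import Pool.Agent.N657.CE.Count

/-!
# The generic case: `α, β > 0`, `α² + β² < 1`
-/

set_option autoImplicit false

namespace Pool.Agent.N657.CE

open Real Set

section
variable {e ρ φ : ℝ}

lemma ze_polar (f : ℝ) : ze (ρ * cos φ) (ρ * sin φ) f = ρ * cos (f - φ) := by
  unfold ze; rw [cos_sub]; ring

lemma z1_polar (f : ℝ) : z1 (ρ * cos φ) (ρ * sin φ) f = -(ρ * sin (f - φ)) := by
  unfold z1; rw [sin_sub]; ring

lemma JJ_pos (hρ0 : 0 < ρ) (hρ1 : ρ < 1) (f : ℝ) : 0 < JJ (ρ * cos φ) (ρ * sin φ) f := by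
  unfold JJ; rw [ze_polar]
  have h1 := neg_one_le_cos (f - φ)
  have h2 := cos_le_one (f - φ)
  have h3 : cos (f - φ) ^ 2 ≤ 1 := by nlinarith
  have h4 : ρ ^ 2 < 1 := by nlinarith
  nlinarith [mul_nonneg (sq_nonneg ρ) (sub_nonneg.2 h3)]

lemma TT_pos (he0 : 0 < e) (he1 : e < 1) (f : ℝ) : 0 < TT e f := by
  unfold TT
  nlinarith [neg_one_le_cos f]

/-- On the upper half the numerator of the derivative has at most one zero. -/
lemma upper_DD {α β : ℝ} (he0 : 0 < e) (he1 : e < 1) (hα : 0 < α) (hβ : 0 < β)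
    (hJ : ∀ f, 0 < JJ α β f) :
    ∀ T : Finset ℝ, (∀ y ∈ T, y ∈ Ioo 0 π ∧ DD e α β y = 0) → T.card ≤ 1 := by
  have hder : ∀ y ∈ Ioo 0 π, ∃ d < 0,
      HasDerivAt (fun x => DD e α β x / (sin x * TT e x) ^ 3) d y := by
    intro y hy
    have hs : 0 < sin y := sin_pos_of_pos_of_lt_pi hy.1 hy.2
    have hT := TT_pos he0 he1 y
    obtain ⟨D', hD', h1, -⟩ := hasDerivAt_DD e α β y
    have hden := ((hasDerivAt_sin y).mul (hasDerivAt_TT e y)).pow 3
    have h := hD'.div hden (by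
      simp only [Pi.pow_apply, Pi.mul_apply]; positivity)
    refine ⟨_, ?_, h⟩
    simp only [Pi.pow_apply, Pi.mul_apply]
    have h2 : 0 < ((sin y * TT e y) ^ 3) ^ 2 := by positivity
    refine div_neg_of_neg_of_pos ?_ h2
    have h3 : D' * (sin y * TT e y) ^ 3 - DD e α β y * (((3 : ℕ) : ℝ) * (sin y * TT e y) ^ (3 - 1)
        * (cos y * TT e y + sin y * -(e * sin y)))
        = (sin y * TT e y) ^ 2 *
          (-3 * (α * β * JJ α β y * TT e y ^ 3 + e * sin y ^ 3 * AA e α β y ^ 2)) := by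
      rw [← h1]; push_cast; ring
    rw [h3]
    have h4 : 0 < (sin y * TT e y) ^ 2 := by positivity
    have h5 : 0 < α * β * JJ α β y * TT e y ^ 3 := by
      have := hJ y
      positivity
    have h6 : 0 ≤ e * sin y ^ 3 * AA e α β y ^ 2 := by positivity
    nlinarith
  have hanti : StrictAntiOn (fun x => DD e α β x / (sin x * TT e x) ^ 3) (Ioo 0 π) := by
    refine strictAntiOn_of_deriv_neg (convex_Ioo _ _) ?_ ?_
    · intro y hy
      obtain ⟨d, -, hd⟩ := hder y hy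
      exact hd.continuousAt.continuousWithinAt
    · rw [isOpen_Ioo.interior_eq]
      intro y hy
      obtain ⟨d, hd0, hd⟩ := hder y hy
      rw [hd.deriv]; exact hd0
  intro T hT
  rw [Finset.card_le_one]
  intro y hy z hz
  refine hanti.injOn (hT y hy).1 (hT z hz).1 ?_
  simp only [(hT y hy).2, (hT z hz).2, zero_div]

/-- the slope function on the lower half has at most two zeros -/
lemma lower_slope (he0 : 0 < e) (hρ0 : 0 < ρ) (hφ0 : 0 < φ) (hφ1 : φ < π / 2) :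
    ∀ T : Finset ℝ, (∀ y ∈ T, y ∈ Ioo (-π) 0 ∧
      (1 + e ^ 2) * (ρ * cos φ * (ρ * sin φ)) + e * mu (ρ * cos φ) (ρ * sin φ) y = 0) →
      T.card ≤ 2 := by
  set L : ℝ → ℝ := fun y => (1 + e ^ 2) * (ρ * cos φ * (ρ * sin φ))
    + e * mu (ρ * cos φ) (ρ * sin φ) y with hL
  have hd : ∀ y, HasDerivAt L (e * (5 * sin y ^ 3 * (ρ * cos (y - φ)) * -(ρ * sin (y - φ)))) y := by
    intro y
    have h := ((hasDerivAt_mu (ρ * cos φ) (ρ * sin φ) y).const_mul e).const_add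
      ((1 + e ^ 2) * (ρ * cos φ * (ρ * sin φ)))
    rw [ze_polar, z1_polar] at h
    exact h
  have hcont : Continuous L := continuous_iff_continuousAt.2 fun y => (hd y).continuousAt
  have hcφ : 0 < cos φ := cos_pos_of_mem_Ioo ⟨by linarith, hφ1⟩
  have hsφ : 0 < sin φ := sin_pos_of_pos_of_lt_pi hφ0 (by linarith [pi_pos])
  have hπ := pi_pos
  have a1 : StrictAntiOn L (Icc (-π) (φ - π)) := by
    refine strictAntiOn_of_deriv_neg (convex_Icc _ _) hcont.continuousOn ?_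
    rw [interior_Icc]
    intro y hy
    rw [(hd y).deriv]
    have h1 : sin y < 0 := sin_neg_of_neg_of_neg_pi_lt (by linarith [hy.2]) hy.1
    have h2 : 0 < cos (y - φ + π) := cos_pos_of_mem_Ioo ⟨by linarith [hy.1], by linarith [hy.2]⟩
    have h3 : sin (y - φ + π) < 0 :=
      sin_neg_of_neg_of_neg_pi_lt (by linarith [hy.2]) (by linarith [hy.1])
    rw [cos_add_pi] at h2
    rw [sin_add_pi] at h3
    have h4 : sin y ^ 3 < 0 := Odd.pow_neg (by decide) h1
    have h5 : 0 < (ρ * cos (y - φ)) * -(ρ * sin (y - φ)) := by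
      have : (ρ * cos (y - φ)) * -(ρ * sin (y - φ)) = ρ ^ 2 * ((-cos (y - φ)) * sin (y - φ)) := by
        ring
      rw [this]
      have : 0 < (-cos (y - φ)) * sin (y - φ) := mul_pos h2 (by linarith)
      positivity
    have h6 : e * (5 * sin y ^ 3 * (ρ * cos (y - φ)) * -(ρ * sin (y - φ)))
        = 5 * e * (sin y ^ 3 * ((ρ * cos (y - φ)) * -(ρ * sin (y - φ)))) := by ring
    rw [h6]
    have := mul_neg_of_neg_of_pos h4 h5
    nlinarith
  have a2 : StrictMonoOn L (Icc (φ - π) (φ - π / 2)) := by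
    refine strictMonoOn_of_deriv_pos (convex_Icc _ _) hcont.continuousOn ?_
    rw [interior_Icc]
    intro y hy
    rw [(hd y).deriv]
    have h1 : sin y < 0 :=
      sin_neg_of_neg_of_neg_pi_lt (by linarith [hy.2]) (by linarith [hy.1])
    have h2 : 0 < sin (y - φ + π) := sin_pos_of_pos_of_lt_pi (by linarith [hy.1]) (by linarith [hy.2])
    have h3 : 0 < cos (y - φ + π) :=
      cos_pos_of_mem_Ioo ⟨by linarith [hy.1], by linarith [hy.2]⟩
    rw [cos_add_pi] at h3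
    rw [sin_add_pi] at h2
    have h4 : sin y ^ 3 < 0 := Odd.pow_neg (by decide) h1
    have h5 : (ρ * cos (y - φ)) * -(ρ * sin (y - φ)) < 0 := by
      have : (ρ * cos (y - φ)) * -(ρ * sin (y - φ)) = -(ρ ^ 2 * ((-cos (y - φ)) * -sin (y - φ))) := by
        ring
      rw [this]
      have : 0 < (-cos (y - φ)) * -sin (y - φ) := mul_pos h3 h2
      have : 0 < ρ ^ 2 * ((-cos (y - φ)) * -sin (y - φ)) := by positivity
      linarith
    have h6 : e * (5 * sin y ^ 3 * (ρ * cos (y - φ)) * -(ρ * sin (y - φ)))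
        = 5 * e * (sin y ^ 3 * ((ρ * cos (y - φ)) * -(ρ * sin (y - φ)))) := by ring
    rw [h6]
    have := mul_pos_of_neg_of_neg h4 h5
    positivity
  have a3 : StrictAntiOn L (Icc (φ - π / 2) 0) := by
    refine strictAntiOn_of_deriv_neg (convex_Icc _ _) hcont.continuousOn ?_
    rw [interior_Icc]
    intro y hy
    rw [(hd y).deriv]
    have h1 : sin y < 0 :=
      sin_neg_of_neg_of_neg_pi_lt (by linarith [hy.2]) (by linarith [hy.1])
    have h2 : sin (y - φ) < 0 :=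
      sin_neg_of_neg_of_neg_pi_lt (by linarith [hy.2]) (by linarith [hy.1])
    have h3 : 0 < cos (y - φ) :=
      cos_pos_of_mem_Ioo ⟨by linarith [hy.1], by linarith [hy.2]⟩
    have h4 : sin y ^ 3 < 0 := Odd.pow_neg (by decide) h1
    have h5 : 0 < (ρ * cos (y - φ)) * -(ρ * sin (y - φ)) := by
      have : (ρ * cos (y - φ)) * -(ρ * sin (y - φ)) = ρ ^ 2 * (cos (y - φ) * -sin (y - φ)) := by
        ring
      rw [this]
      have : 0 < cos (y - φ) * -sin (y - φ) := mul_pos h3 (by linarith)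
      positivity
    have h6 : e * (5 * sin y ^ 3 * (ρ * cos (y - φ)) * -(ρ * sin (y - φ)))
        = 5 * e * (sin y ^ 3 * ((ρ * cos (y - φ)) * -(ρ * sin (y - φ)))) := by ring
    rw [h6]
    have := mul_neg_of_neg_of_pos h4 h5
    nlinarith
  have h0 : 0 < L 0 := by
    have : L 0 = (1 + e) ^ 2 * (ρ * cos φ * (ρ * sin φ)) := by
      simp only [hL, mu, ze, z1, cos_zero, sin_zero]; ring
    rw [this]; positivity
  intro T hT
  by_contra hcon
  push Not at hcon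
  obtain ⟨S, hST, hS⟩ := Finset.exists_subset_card_eq (n := 3) (s := T) (by omega)
  set s := S.orderEmbOfFin hS with hs
  have hmem : ∀ i, s i ∈ Ioo (-π) 0 := fun i => (hT _ (hST (S.orderEmbOfFin_mem hS i))).1
  have hval : ∀ i, L (s i) = 0 := fun i => (hT _ (hST (S.orderEmbOfFin_mem hS i))).2
  have h01 : s 0 < s 1 := s.strictMono (by decide)
  have h12 : s 1 < s 2 := s.strictMono (by decide)
  have hlt : s 2 < φ - π / 2 := by
    by_contra hge
    push Not at hge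
    have := a3 ⟨hge, (hmem 2).2.le⟩ ⟨by linarith, le_rfl⟩ (hmem 2).2
    rw [hval] at this
    linarith
  rcases le_or_gt (s 1) (φ - π) with h | h
  · have := a1 ⟨(hmem 0).1.le, by linarith⟩ ⟨(hmem 1).1.le, h⟩ h01
    rw [hval, hval] at this
    exact lt_irrefl _ this
  · have := a2 ⟨h.le, by linarith⟩ ⟨by linarith, hlt.le⟩ h12
    rw [hval, hval] at this
    exact lt_irrefl _ this

/-- On the lower half the numerator of the derivative has at most three zeros. -/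
lemma lower_DD (he0 : 0 < e) (hρ0 : 0 < ρ) (hρ1 : ρ < 1) (hφ0 : 0 < φ) (hφ1 : φ < π / 2) :
    ∀ T : Finset ℝ, (∀ y ∈ T, y ∈ Ioo (-π) 0 ∧ DD e (ρ * cos φ) (ρ * sin φ) y = 0) →
      T.card ≤ 3 := by
  set α := ρ * cos φ with hα
  set β := ρ * sin φ with hβ
  have hs : ∀ y ∈ Ioo (-π) 0, sin y < 0 := fun y hy =>
    sin_neg_of_neg_of_neg_pi_lt hy.2 hy.1
  have hder : ∀ y ∈ Ioo (-π) 0, HasDerivAt (fun x => DD e α β x / sin x ^ 3)
      (-3 * (JJ α β y * ((1 + e ^ 2) * (α * β) + e * mu α β y)) / sin y ^ 4) y := by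
    intro y hy
    have hs0 := (hs y hy).ne
    obtain ⟨D', hD', -, h1⟩ := hasDerivAt_DD e α β y
    have h := hD'.div ((hasDerivAt_sin y).pow 3) (by
      simp only [Pi.pow_apply]; exact pow_ne_zero _ hs0)
    refine h.congr_deriv ?_
    simp only [Pi.pow_apply]
    rw [← h1]
    push_cast
    field_simp
    try ring
  intro T hT
  refine level_le (k := 0) hder ?_ T (fun y hy => ⟨(hT y hy).1, by simp [(hT y hy).2]⟩)
  intro T' hT'
  refine lower_slope he0 hρ0 hφ0 hφ1 T' (fun y hy => ⟨(hT' y hy).1, ?_⟩)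
  have h1 := (hT' y hy).2
  have hs0 := (hs y (hT' y hy).1).ne
  have hJ : 0 < JJ α β y := JJ_pos hρ0 hρ1 y
  rw [div_eq_zero_iff] at h1
  rcases h1 with h1 | h1
  · have h2 : JJ α β y * ((1 + e ^ 2) * (α * β) + e * mu α β y) = 0 := by linarith
    exact (mul_eq_zero.1 h2).resolve_left hJ.ne'
  · exact absurd h1 (pow_ne_zero _ hs0)

/-- `AA` as a quartic polynomial in the tangent of the half angle -/
lemma AA_tan (e α β y : ℝ) (hy : cos (y / 2) ≠ 0) :
    AA e α β y = cos (y / 2) ^ 4 * (-(α * β * (1 - e)) * tan (y / 2) ^ 4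
      + (2 * e * (1 - β ^ 2) + 2 * (β ^ 2 - α ^ 2)) * tan (y / 2) ^ 3
      + 6 * α * β * tan (y / 2) ^ 2 + (2 * e * (1 - β ^ 2) - 2 * (β ^ 2 - α ^ 2)) * tan (y / 2)
      + -(α * β * (1 + e))) := by
  have hc : cos y = cos (y / 2) ^ 2 - sin (y / 2) ^ 2 := by
    rw [← cos_two_mul']; congr 1; ring
  have hs : sin y = 2 * sin (y / 2) * cos (y / 2) := by
    rw [← sin_two_mul]; congr 1; ring
  have h1 : sin (y / 2) ^ 2 + cos (y / 2) ^ 2 = 1 := sin_sq_add_cos_sq _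
  unfold AA ze z1
  rw [hc, hs, tan_eq_sin_div_cos]
  generalize cos (y / 2) = c at *
  generalize sin (y / 2) = s at *
  have h2 : ∀ a4 a3 a2 a1 a0 : ℝ, c ^ 4 * (a4 * (s / c) ^ 4 + a3 * (s / c) ^ 3 + a2 * (s / c) ^ 2
      + a1 * (s / c) + a0) = a4 * s ^ 4 + a3 * s ^ 3 * c + a2 * s ^ 2 * c ^ 2 + a1 * s * c ^ 3
      + a0 * c ^ 4 := by
    intros; field_simp
  rw [h2]
  linear_combination (-(2 * e * s * c - e * β * (α * (c ^ 2 - s ^ 2) + 2 * β * s * c))) * h1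

lemma lower_AA (he0 : 0 < e) (he1 : e < 1) (hρ0 : 0 < ρ) (hφ0 : 0 < φ) (hφ1 : φ < π / 2) :
    ∀ T : Finset ℝ, (∀ y ∈ T, y ∈ Ioo (-π) 0 ∧ AA e (ρ * cos φ) (ρ * sin φ) y = 0) →
      T.card ≤ 3 := by
  have hcφ : 0 < cos φ := cos_pos_of_mem_Ioo ⟨by linarith, hφ1⟩
  have hsφ : 0 < sin φ := sin_pos_of_pos_of_lt_pi hφ0 (by linarith [pi_pos])
  have hπ := pi_pos
  set α := ρ * cos φ with hα
  set β := ρ * sin φ with hβ
  have hα0 : 0 < α := by positivity
  have hβ0 : 0 < β := by positivity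
  have hcont : Continuous (AA e α β) :=
    continuous_iff_continuousAt.2 fun y => (hasDerivAt_AA e α β y).continuousAt
  -- a zero on the upper half
  obtain ⟨u, hu, hu0⟩ : ∃ u ∈ Ioo 0 (φ + π / 2), AA e α β u = 0 := by
    have h0 : AA e α β 0 < 0 := by
      have : AA e α β 0 = -(α * β * (1 + e)) := by
        simp [AA, ze, z1]; ring
      rw [this]
      have : 0 < α * β * (1 + e) := by positivity
      linarith
    have h1 : 0 < AA e α β (φ + π / 2) := by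
      have hz : ze α β (φ + π / 2) = 0 := by
        rw [hα, hβ, ze_polar]; simp
      have : AA e α β (φ + π / 2) = e * sin (φ + π / 2) := by
        unfold AA; rw [hz]; ring
      rw [this, sin_add_pi_div_two]
      positivity
    obtain ⟨u, hu, hu0⟩ := intermediate_value_Ioo (by linarith : (0 : ℝ) ≤ φ + π / 2)
      hcont.continuousOn ⟨h0, h1⟩
    exact ⟨u, hu, hu0⟩
  intro T hT
  classical
  have hmem : ∀ y ∈ insert u T, y ∈ Ioo (-π) π := by
    intro y hy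
    rcases Finset.mem_insert.1 hy with rfl | hy
    · exact ⟨by linarith [hu.1], by linarith [hu.2]⟩
    · exact ⟨(hT y hy).1.1, by linarith [(hT y hy).1.2]⟩
  have hzero : ∀ y ∈ insert u T, AA e α β y = 0 := by
    intro y hy
    rcases Finset.mem_insert.1 hy with rfl | hy
    · exact hu0
    · exact (hT y hy).2
  have hunot : u ∉ T := fun h => by linarith [(hT u h).1.2, hu.1]
  have hinj : Set.InjOn (fun y => tan (y / 2)) (insert u T : Finset ℝ) := by
    intro y hy z hz hyz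
    have hy' := hmem y hy
    have hz' := hmem z hz
    have := strictMonoOn_tan.injOn (x₁ := y / 2) (x₂ := z / 2)
      ⟨by linarith [hy'.1], by linarith [hy'.2]⟩ ⟨by linarith [hz'.1], by linarith [hz'.2]⟩ hyz
    linarith
  have hc := quartic_card (p4 := -(α * β * (1 - e)))
    (p3 := 2 * e * (1 - β ^ 2) + 2 * (β ^ 2 - α ^ 2)) (p2 := 6 * α * β)
    (p1 := 2 * e * (1 - β ^ 2) - 2 * (β ^ 2 - α ^ 2)) (p0 := -(α * β * (1 + e)))
    ⟨0, by
      have : 0 < α * β * (1 + e) := by positivity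
      simp; exact ⟨⟨hα0.ne', hβ0.ne'⟩, by linarith⟩⟩
    ((insert u T).image fun y => tan (y / 2)) (by
      intro t ht
      obtain ⟨y, hy, rfl⟩ := Finset.mem_image.1 ht
      have hy' := hmem y hy
      have hcy : 0 < cos (y / 2) := cos_pos_of_mem_Ioo ⟨by linarith [hy'.1], by linarith [hy'.2]⟩
      have h1 := AA_tan e α β y hcy.ne'
      rw [hzero y hy] at h1
      exact ((mul_eq_zero.1 h1.symm).resolve_left (pow_ne_zero _ hcy.ne')))
  rw [Finset.card_image_of_injOn hinj, Finset.card_insert_of_notMem hunot] at hc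
  omega

/-- upper half: each level is attained at most twice -/
lemma upper_GG (he0 : 0 < e) (he1 : e < 1) (hρ0 : 0 < ρ) (hρ1 : ρ < 1) (hφ0 : 0 < φ)
    (hφ1 : φ < π / 2) (k : ℝ) (T : Finset ℝ)
    (hT : ∀ y ∈ T, y ∈ Ioo 0 π ∧ GG e (ρ * cos φ) (ρ * sin φ) y = k) : T.card ≤ 2 := by
  have hcφ : 0 < cos φ := cos_pos_of_mem_Ioo ⟨by linarith, hφ1⟩
  have hsφ : 0 < sin φ := sin_pos_of_pos_of_lt_pi hφ0 (by linarith [pi_pos])
  have hs : ∀ y ∈ Ioo 0 π, 0 < sin y := fun y hy => sin_pos_of_pos_of_lt_pi hy.1 hy.2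
  have hG : ∀ y ∈ Ioo 0 π, HasDerivAt (GG e (ρ * cos φ) (ρ * sin φ))
      ((fun y => DD e (ρ * cos φ) (ρ * sin φ) y / (JJ (ρ * cos φ) (ρ * sin φ) y
        * √(JJ (ρ * cos φ) (ρ * sin φ) y) * sin y ^ 2)) y) y := fun y hy =>
    hasDerivAt_GG _ _ _ _ (JJ_pos hρ0 hρ1 y) (hs y hy).ne'
  refine level_le (m := 1) hG ?_ T hT
  intro T' hT'
  refine upper_DD he0 he1 (mul_pos hρ0 hcφ) (mul_pos hρ0 hsφ) (fun f => JJ_pos hρ0 hρ1 f) T'
    (fun y hy => ⟨(hT' y hy).1, ?_⟩)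
  have h1 := (hT' y hy).2
  have h2 := JJ_pos (φ := φ) hρ0 hρ1 y
  have h3 := hs y (hT' y hy).1
  simp only [div_eq_zero_iff] at h1
  rcases h1 with h1 | h1
  · exact h1
  · have : 0 < JJ (ρ * cos φ) (ρ * sin φ) y * √(JJ (ρ * cos φ) (ρ * sin φ) y) * sin y ^ 2 := by
      have := sqrt_pos.2 h2
      positivity
    exact absurd h1 this.ne'

/-- lower half: the levels `± K` are attained at most six times -/
lemma lower_GG (he0 : 0 < e) (he1 : e < 1) (hρ0 : 0 < ρ) (hρ1 : ρ < 1) (hφ0 : 0 < φ)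
    (hφ1 : φ < π / 2) {K : ℝ} (hK : 0 < K) (T : Finset ℝ)
    (hT : ∀ y ∈ T, y ∈ Ioo (-π) 0 ∧ (GG e (ρ * cos φ) (ρ * sin φ) y = K ∨
      GG e (ρ * cos φ) (ρ * sin φ) y = -K)) : T.card ≤ 6 := by
  have hcφ : 0 < cos φ := cos_pos_of_mem_Ioo ⟨by linarith, hφ1⟩
  have hsφ : 0 < sin φ := sin_pos_of_pos_of_lt_pi hφ0 (by linarith [pi_pos])
  have hπ := pi_pos
  have hs : ∀ y ∈ Ioo (-π) 0, sin y < 0 := fun y hy => sin_neg_of_neg_of_neg_pi_lt hy.2 hy.1
  have hG : ∀ y ∈ Ioo (-π) 0, HasDerivAt (GG e (ρ * cos φ) (ρ * sin φ))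
      ((fun y => DD e (ρ * cos φ) (ρ * sin φ) y / (JJ (ρ * cos φ) (ρ * sin φ) y
        * √(JJ (ρ * cos φ) (ρ * sin φ) y) * sin y ^ 2)) y) y := fun y hy =>
    hasDerivAt_GG _ _ _ _ (JJ_pos hρ0 hρ1 y) (hs y hy).ne
  have hpos : ∀ y, y ∈ Ioo (-π) 0 → AA e (ρ * cos φ) (ρ * sin φ) y < 0 →
      0 < GG e (ρ * cos φ) (ρ * sin φ) y := by
    intro y hy hA
    unfold GG
    have h1 := TT_pos he0 he1 y
    have h2 := sqrt_pos.2 (JJ_pos (φ := φ) hρ0 hρ1 y)
    exact div_pos_of_neg_of_neg (mul_neg_of_pos_of_neg h1 hA) (mul_neg_of_pos_of_neg h2 (hs y hy))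
  have hcont : Continuous (AA e (ρ * cos φ) (ρ * sin φ)) :=
    continuous_iff_continuousAt.2 fun y => (hasDerivAt_AA e _ _ y).continuousAt
  have hAl : AA e (ρ * cos φ) (ρ * sin φ) (-π) < 0 := by
    have : AA e (ρ * cos φ) (ρ * sin φ) (-π) = -(ρ * cos φ * (ρ * sin φ) * (1 - e)) := by
      simp [AA, ze, z1]; ring
    rw [this]
    have : 0 < ρ * cos φ * (ρ * sin φ) * (1 - e) := by
      have : 0 < 1 - e := by linarith
      positivity
    linarith
  have hAr : AA e (ρ * cos φ) (ρ * sin φ) 0 < 0 := by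
    have : AA e (ρ * cos φ) (ρ * sin φ) 0 = -(ρ * cos φ * (ρ * sin φ) * (1 + e)) := by
      simp [AA, ze, z1]; ring
    rw [this]
    have : 0 < ρ * cos φ * (ρ * sin φ) * (1 + e) := by positivity
    linarith
  refine six_le hK hG ?_ ?_ ?_ ?_ T hT
  · intro T' hT'
    refine lower_DD he0 hρ0 hρ1 hφ0 hφ1 T' (fun y hy => ⟨(hT' y hy).1, ?_⟩)
    have h1 := (hT' y hy).2
    have h2 := JJ_pos (φ := φ) hρ0 hρ1 y
    have h3 := hs y (hT' y hy).1
    simp only [div_eq_zero_iff] at h1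
    rcases h1 with h1 | h1
    · exact h1
    · have : 0 < JJ (ρ * cos φ) (ρ * sin φ) y * √(JJ (ρ * cos φ) (ρ * sin φ) y) * sin y ^ 2 := by
        have := sqrt_pos.2 h2
        have := pow_pos (neg_pos.2 h3) 2
        rw [neg_sq] at this
        positivity
      exact absurd h1 this.ne'
  · intro T' hT'
    refine lower_AA he0 he1 hρ0 hφ0 hφ1 T' (fun y hy => ⟨(hT' y hy).1, ?_⟩)
    have h1 := (hT' y hy).2
    have h2 := sqrt_pos.2 (JJ_pos (φ := φ) hρ0 hρ1 y)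
    have h3 := hs y (hT' y hy).1
    have h4 := TT_pos he0 he1 y
    unfold GG at h1
    rw [div_eq_zero_iff] at h1
    rcases h1 with h1 | h1
    · exact (mul_eq_zero.1 h1).resolve_left h4.ne'
    · exact absurd h1 (mul_ne_zero h2.ne' h3.ne)
  · intro y hy
    have h1 : ∀ᶠ z in nhdsWithin (-π) (Ioi (-π)), AA e (ρ * cos φ) (ρ * sin φ) z < 0 :=
      (hcont.continuousAt.eventually_lt continuousAt_const hAl).filter_mono nhdsWithin_le_nhds
    have h2 : ∀ᶠ z in nhdsWithin (-π) (Ioi (-π)), z ∈ Ioo (-π) y := Ioo_mem_nhdsGT hy.1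
    obtain ⟨z, hz1, hz2⟩ := (h1.and h2).exists
    exact ⟨z, hz2, hpos z ⟨hz2.1, hz2.2.trans hy.2⟩ hz1⟩
  · intro y hy
    have h1 : ∀ᶠ z in nhdsWithin (0 : ℝ) (Iio 0), AA e (ρ * cos φ) (ρ * sin φ) z < 0 :=
      (hcont.continuousAt.eventually_lt continuousAt_const hAr).filter_mono nhdsWithin_le_nhds
    have h2 : ∀ᶠ z in nhdsWithin (0 : ℝ) (Iio 0), z ∈ Ioo y 0 := Ioo_mem_nhdsLT hy.2
    obtain ⟨z, hz1, hz2⟩ := (h1.and h2).exists
    exact ⟨z, hz2, hpos z ⟨hy.1.trans hz2.1, hz2.2⟩ hz1⟩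

end

end Pool.Agent.N657.CE
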