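import Pool.Agent.N657.CE.Perp2

/-!
# Geometry of the circle–ellipse pair
-/

set_option autoImplicit false

namespace Pool.Agent.N657.CE

open Real Set

abbrev E3 : Type := EuclideanSpace ℝ (Fin 3)

/-- extend an orthonormal pair to a basis: coordinate form -/
lemma exists_normal (u w : E3) (hu : ‖u‖ = 1) (hw : ‖w‖ = 1) (huw : inner ℝ u w = 0) :
    ∃ n : E3, ‖n‖ = 1 ∧
      ∀ x y : E3, inner ℝ x y = inner ℝ x u * inner ℝ y u + inner ℝ x w * inner ℝ y w
      + inner ℝ x n * inner ℝ y n := by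
  classical
  have hv : Orthonormal ℝ (({0, 1} : Set (Fin 3)).domRestrict (![u, w, 0] : Fin 3 → E3)) := by
    rw [orthonormal_iff_ite]
    rintro ⟨i, hi⟩ ⟨j, hj⟩
    simp only [Set.mem_insert_iff, Set.mem_singleton_iff] at hi hj
    rcases hi with rfl | rfl <;> rcases hj with rfl | rfl
    · simp [hu, Set.domRestrict]
    · simpa [Set.domRestrict] using huw
    · simpa [real_inner_comm, Set.domRestrict] using huw
    · simp [hw, Set.domRestrict]
  obtain ⟨b, hb⟩ := hv.exists_orthonormalBasis_extension_of_card_eq (by simp)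
  have h0 : b 0 = u := by simpa using hb 0 (by simp)
  have h1 : b 1 = w := by simpa using hb 1 (by simp)
  refine ⟨b 2, b.orthonormal.1 2, fun x y => ?_⟩
  rw [← b.sum_inner_mul_inner x y, Fin.sum_univ_three, h0, h1, real_inner_comm y u,
    real_inner_comm y w, real_inner_comm y (b 2)]

lemma line_circle {a b k X Y X' Y' : ℝ} (hab : 0 < a ^ 2 + b ^ 2) (h : X ^ 2 + Y ^ 2 = 1)
    (h' : X' ^ 2 + Y' ^ 2 = 1) (hk : a * X + b * Y = k) (hk' : a * X' + b * Y' = k)
    (hs : 0 < a * Y - b * X ↔ 0 < a * Y' - b * X') : X = X' ∧ Y = Y' := by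
  have hD : (a * Y - b * X) ^ 2 = (a * Y' - b * X') ^ 2 := by
    have e1 : (a * Y - b * X) ^ 2 = a ^ 2 + b ^ 2 - k ^ 2 := by
      rw [← hk]; linear_combination (a ^ 2 + b ^ 2) * h
    have e2 : (a * Y' - b * X') ^ 2 = a ^ 2 + b ^ 2 - k ^ 2 := by
      rw [← hk']; linear_combination (a ^ 2 + b ^ 2) * h'
    rw [e1, e2]
  have hD' : a * Y - b * X = a * Y' - b * X' := by
    rcases sq_eq_sq_iff_eq_or_eq_neg.1 hD with h1 | h1
    · exact h1
    · by_cases h2 : 0 < a * Y - b * X
      · have := hs.1 h2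
        linarith
      · have h3 : ¬ 0 < a * Y' - b * X' := fun h => h2 (hs.2 h)
        push Not at h2 h3
        linarith
  constructor
  · have : (a ^ 2 + b ^ 2) * X = (a ^ 2 + b ^ 2) * X' := by
      linear_combination a * hk - b * hD' - a * hk'
    exact mul_left_cancel₀ hab.ne' this
  · have : (a ^ 2 + b ^ 2) * Y = (a ^ 2 + b ^ 2) * Y' := by
      linear_combination b * hk + a * hD' - b * hk'
    exact mul_left_cancel₀ hab.ne' this

/-- the tangent direction of the ellipse at the point with direction `c u + s w` -/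
noncomputable def tau (u w : E3) (e c s : ℝ) : E3 := (-s) • u + (c + e) • w

/-- the stationary pairs in normalised coordinates -/
def SS (F u₁ w₁ u w : E3) (R p e : ℝ) : Set (E3 × E3) :=
  {x | ∃ X Y c s : ℝ, X ^ 2 + Y ^ 2 = 1 ∧ c ^ 2 + s ^ 2 = 1 ∧
    x = (F + R • (X • u₁ + Y • w₁), F + (p / (1 + e * c)) • (c • u + s • w)) ∧
    X * inner ℝ (c • u + s • w) w₁ = Y * inner ℝ (c • u + s • w) u₁ ∧
    R * (X * inner ℝ (tau u w e c s) u₁ + Y * inner ℝ (tau u w e c s) w₁) * (1 + e * c)
      = p * e * s}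

theorem SS_encard_le {F u₁ w₁ u w : E3} {R p e : ℝ} (hR : 0 < R) (hp : 0 < p) (he0 : 0 < e)
    (he1 : e < 1) (hu₁ : ‖u₁‖ = 1) (hw₁ : ‖w₁‖ = 1) (huw₁ : inner ℝ u₁ w₁ = 0)
    (hu : ‖u‖ = 1) (hw : ‖w‖ = 1) (huw : inner ℝ u w = 0) :
    (SS F u₁ w₁ u w R p e).encard ≤ 10 := by
  classical
  obtain ⟨n, hn, hbas⟩ := exists_normal u₁ w₁ hu₁ hw₁ huw₁
  set α : ℝ := inner ℝ u n with hα
  set β : ℝ := inner ℝ w n with hβ
  have huu : inner ℝ u u = (1 : ℝ) := by rw [real_inner_self_eq_norm_sq, hu]; norm_num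
  have hww : inner ℝ w w = (1 : ℝ) := by rw [real_inner_self_eq_norm_sq, hw]; norm_num
  have hnn : inner ℝ n n = (1 : ℝ) := by rw [real_inner_self_eq_norm_sq, hn]; norm_num
  have hwu : inner ℝ w u = (0 : ℝ) := by rw [real_inner_comm]; exact huw
  have hnu : inner ℝ n u = α := real_inner_comm _ _
  have hnw : inner ℝ n w = β := real_inner_comm _ _
  have hαβ : α ^ 2 + β ^ 2 ≤ 1 := by
    have h1 : 0 ≤ inner ℝ (n - α • u - β • w) (n - α • u - β • w) := real_inner_self_nonneg
    have h2 : inner ℝ (n - α • u - β • w) (n - α • u - β • w) = 1 - α ^ 2 - β ^ 2 := by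
      simp only [inner_sub_left, inner_sub_right, inner_smul_left, inner_smul_right,
        huu, hww, hnn, hwu, huw, hnu, hnw, ← hα, ← hβ, RCLike.conj_to_real]
      ring
    rw [h2] at h1
    linarith
  set K := p * e / R with hK
  have hK0 : 0 < K := by positivity
  -- inner products
  have hvn : ∀ c s : ℝ, inner ℝ (c • u + s • w) n = α * c + β * s := by
    intro c s
    simp only [inner_add_left, inner_smul_left, ← hα, ← hβ, RCLike.conj_to_real]
    ring
  have htn : ∀ c s : ℝ, inner ℝ (tau u w e c s) n = -s * α + (c + e) * β := by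
    intro c s
    unfold tau
    simp only [inner_add_left, inner_smul_left, ← hα, ← hβ, RCLike.conj_to_real]
  have hvt : ∀ c s : ℝ, inner ℝ (c • u + s • w) (tau u w e c s) = e * s := by
    intro c s
    unfold tau
    simp only [inner_add_left, inner_add_right, inner_smul_left, inner_smul_right,
      huu, hww, hwu, huw, RCLike.conj_to_real]
    ring
  have hvv : ∀ c s : ℝ, inner ℝ (c • u + s • w) (c • u + s • w) = c ^ 2 + s ^ 2 := by
    intro c s
    simp only [inner_add_left, inner_add_right, inner_smul_left, inner_smul_right,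
      huu, hww, hwu, huw, RCLike.conj_to_real]
    ring
  have htt : ∀ c s : ℝ, inner ℝ (tau u w e c s) (tau u w e c s) = s ^ 2 + (c + e) ^ 2 := by
    intro c s
    unfold tau
    simp only [inner_add_left, inner_add_right, inner_smul_left, inner_smul_right,
      huu, hww, hwu, huw, RCLike.conj_to_real]
    ring
  have hTpos : ∀ c s : ℝ, c ^ 2 + s ^ 2 = 1 → 0 < 1 + e * c := by
    intro c s h
    have : -1 ≤ c := by nlinarith [sq_nonneg s]
    nlinarith
  -- the pairs with `l ≠ 0`
  let Φ : ℝ × ℝ × ℝ → E3 × E3 := fun x =>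
    (F + (R / x.2.2) • ((inner ℝ (x.1 • u + x.2.1 • w) u₁ : ℝ) • u₁
      + (inner ℝ (x.1 • u + x.2.1 • w) w₁ : ℝ) • w₁),
      F + (p / (1 + e * x.1)) • (x.1 • u + x.2.1 • w))
  -- analysis of a stationary pair
  have hmain : ∀ X Y c s : ℝ, X ^ 2 + Y ^ 2 = 1 → c ^ 2 + s ^ 2 = 1 →
      X * inner ℝ (c • u + s • w) w₁ = Y * inner ℝ (c • u + s • w) u₁ →
      R * (X * inner ℝ (tau u w e c s) u₁ + Y * inner ℝ (tau u w e c s) w₁) * (1 + e * c)
      = p * e * s →
      (F + R • (X • u₁ + Y • w₁), F + (p / (1 + e * c)) • (c • u + s • w)) ∈ Φ '' ZZ α β e K ∨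
      (α * c + β * s) ^ 2 = 1 := by
    intro X Y c s hXY hcs h1 h2
    set x : ℝ := inner ℝ (c • u + s • w) u₁ with hx
    set y : ℝ := inner ℝ (c • u + s • w) w₁ with hy
    have hxyz : x ^ 2 + y ^ 2 + (α * c + β * s) ^ 2 = 1 := by
      have := hbas (c • u + s • w) (c • u + s • w)
      rw [hvv, hcs, hvn, ← hx, ← hy] at this
      rw [this]; ring
    have hxt : x * inner ℝ (tau u w e c s) u₁ + y * inner ℝ (tau u w e c s) w₁
        = e * s - (α * c + β * s) * (-s * α + (c + e) * β) := by
      have := hbas (c • u + s • w) (tau u w e c s)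
      rw [hvt, hvn, htn, ← hx, ← hy] at this
      rw [this]; ring
    set l := x * X + y * Y with hl
    have hxl : x = l * X := by
      rw [hl]; linear_combination (-x) * hXY - Y * h1
    have hyl : y = l * Y := by
      rw [hl]; linear_combination (-y) * hXY + X * h1
    have hl2 : l ^ 2 = 1 - (α * c + β * s) ^ 2 := by
      have : l ^ 2 = x ^ 2 + y ^ 2 := by
        rw [hxl, hyl]; linear_combination (-l ^ 2) * hXY
      linarith
    by_cases hl0 : l = 0
    · right
      rw [hl0] at hl2
      linarith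
    · left
      refine ⟨(c, s, l), ⟨hcs, hl2, hl0, ?_⟩, ?_⟩
      · simp only
        have h3 : R * (x * inner ℝ (tau u w e c s) u₁ + y * inner ℝ (tau u w e c s) w₁)
            * (1 + e * c) = l * (p * e * s) := by
          rw [← h2, hxl, hyl]; ring
        rw [hxt] at h3
        rw [hK]
        have hR0 := hR.ne'
        have : R * ((1 + e * c) * (e * s - (α * c + β * s) * (β * c - α * s)
            - e * β * (α * c + β * s))) = R * (p * e / R * l * s) := by
          rw [show R * (p * e / R * l * s) = l * (p * e * s) by field_simp, ← h3]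
          ring
        exact mul_left_cancel₀ hR0 this
      · simp only [Φ, Prod.mk.injEq, and_true]
        rw [← hx, ← hy, hxl, hyl]
        congr 1
        rw [mul_smul, mul_smul, ← smul_add, smul_smul, div_mul_cancel₀ _ hl0]
  rcases hαβ.lt_or_eq with hlt | heq
  · have hsub : SS F u₁ w₁ u w R p e ⊆ Φ '' ZZ α β e K := by
      rintro _ ⟨X, Y, c, s, hXY, hcs, rfl, h1, h2⟩
      rcases hmain X Y c s hXY hcs h1 h2 with h | h
      · exact h
      · exfalso
        have h3 : (α * c + β * s) ^ 2 + (α * s - β * c) ^ 2 = α ^ 2 + β ^ 2 := by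
          linear_combination (α ^ 2 + β ^ 2) * hcs
        nlinarith [sq_nonneg (α * s - β * c)]
    calc (SS F u₁ w₁ u w R p e).encard ≤ (Φ '' ZZ α β e K).encard := Set.encard_le_encard hsub
      _ ≤ (ZZ α β e K).encard := Set.encard_image_le _ _
      _ ≤ 10 := encard_le_of_finset (n := 10) fun T hT => card_nonperp he0 he1 hlt hK0 T hT
  · -- orthogonal planes
    let Ψ : ℝ × ℝ × ℝ → E3 × E3 := fun x =>
      (F + R • (x.2.1 • u₁ + x.2.2 • w₁),
        F + (p / (1 + e * (x.1 * α))) • ((x.1 * α) • u + (x.1 * β) • w))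
    let Z0 : Set (ℝ × ℝ × ℝ) := {x | x.1 ^ 2 = 1 ∧ x.2.1 ^ 2 + x.2.2 ^ 2 = 1 ∧
      R * (x.2.1 * inner ℝ (tau u w e (x.1 * α) (x.1 * β)) u₁
        + x.2.2 * inner ℝ (tau u w e (x.1 * α) (x.1 * β)) w₁) * (1 + e * (x.1 * α))
        = p * e * (x.1 * β)}
    have hsub : SS F u₁ w₁ u w R p e ⊆ Φ '' ZZ α β e K ∪ Ψ '' Z0 := by
      rintro _ ⟨X, Y, c, s, hXY, hcs, rfl, h1, h2⟩
      rcases hmain X Y c s hXY hcs h1 h2 with h | h
      · exact Or.inl h
      · right
        have h3 : (α * c + β * s) ^ 2 + (α * s - β * c) ^ 2 = α ^ 2 + β ^ 2 := by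
          linear_combination (α ^ 2 + β ^ 2) * hcs
        have h4 : α * s - β * c = 0 := by
          rw [h, heq] at h3
          have : (α * s - β * c) ^ 2 = 0 := by linarith
          exact pow_eq_zero_iff two_ne_zero |>.1 this
        have hc : c = (α * c + β * s) * α := by
          linear_combination (-c) * heq - β * h4
        have hs : s = (α * c + β * s) * β := by
          linear_combination (-s) * heq + α * h4
        refine ⟨(α * c + β * s, X, Y), ⟨h, hXY, ?_⟩, ?_⟩
        · simp only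
          rw [← hc, ← hs]
          exact h2
        · simp only [Ψ, Prod.mk.injEq, true_and]
          rw [← hc, ← hs]
    have hZ0 : Z0.encard ≤ 4 := by
      refine encard_le_of_finset (n := 4) fun T hT => ?_
      let D : ℝ × ℝ × ℝ → ℝ := fun x =>
        inner ℝ (tau u w e (x.1 * α) (x.1 * β)) u₁ * x.2.2
          - inner ℝ (tau u w e (x.1 * α) (x.1 * β)) w₁ * x.2.1
      let κ : ℝ × ℝ × ℝ → Bool × Bool := fun x => (decide (0 < x.1), decide (0 < D x))
      have hinj : Set.InjOn κ T := by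
        intro x hx y hy hxy
        obtain ⟨x1, x2, x3⟩ := hT x hx
        obtain ⟨y1, y2, y3⟩ := hT y hy
        simp only [κ, Prod.mk.injEq, decide_eq_decide] at hxy
        obtain ⟨k1, k2⟩ := hxy
        have e1 : x.1 = y.1 := by
          have hx0 : x.1 ≠ 0 := by intro h; rw [h] at x1; norm_num at x1
          have hy0 : y.1 ≠ 0 := by intro h; rw [h] at y1; norm_num at y1
          rcases lt_or_gt_of_ne hx0 with h | h
          · have h' : y.1 < 0 := by
              rcases lt_or_gt_of_ne hy0 with h' | h'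
              · exact h'
              · exact absurd (k1.2 h') (by linarith)
            exact eq_of_sq_eq_neg (by rw [x1, y1]) h h'
          · exact eq_of_sq_eq_pos (by rw [x1, y1]) h (k1.1 h)
        simp only [D] at k2
        rw [← e1] at k2 y3
        set τ := tau u w e (x.1 * α) (x.1 * β) with hτ
        set t₁ : ℝ := inner ℝ τ u₁ with ht₁
        set t₂ : ℝ := inner ℝ τ w₁ with ht₂
        have hcs : (x.1 * α) ^ 2 + (x.1 * β) ^ 2 = 1 := by
          linear_combination (α ^ 2 + β ^ 2) * x1 + heq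
        have hTp := hTpos _ _ hcs
        have htt' : t₁ ^ 2 + t₂ ^ 2 = (1 + e * (x.1 * α)) ^ 2 := by
          have h5 := hbas τ τ
          rw [hτ, htt, htn, ← hτ, ← ht₁, ← ht₂] at h5
          linear_combination (-1) * h5 + hcs - e ^ 2 * heq - e ^ 2 * α ^ 2 * x1
        have hpos : 0 < t₁ ^ 2 + t₂ ^ 2 := by rw [htt']; positivity
        have hlx : t₁ * x.2.1 + t₂ * x.2.2 = p * e * (x.1 * β) / (R * (1 + e * (x.1 * α))) := by
          rw [eq_div_iff (by positivity), ← x3]; ring
        have hly : t₁ * y.2.1 + t₂ * y.2.2 = p * e * (x.1 * β) / (R * (1 + e * (x.1 * α))) := by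
          rw [eq_div_iff (by positivity), ← y3]; ring
        obtain ⟨e2, e3⟩ := line_circle hpos x2 y2 hlx hly k2
        exact Prod.ext e1 (Prod.ext e2 e3)
      have hcard : T.card ≤ (Finset.univ : Finset (Bool × Bool)).card :=
        Finset.card_le_card_of_injOn κ (fun _ _ => Finset.mem_coe.2 (Finset.mem_univ _)) hinj
      have : (Finset.univ : Finset (Bool × Bool)).card = 4 := by decide
      omega
    calc (SS F u₁ w₁ u w R p e).encard ≤ (Φ '' ZZ α β e K ∪ Ψ '' Z0).encard :=
          Set.encard_le_encard hsub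
      _ ≤ (Φ '' ZZ α β e K).encard + (Ψ '' Z0).encard := Set.encard_union_le _ _
      _ ≤ (ZZ α β e K).encard + Z0.encard :=
          add_le_add (Set.encard_image_le _ _) (Set.encard_image_le _ _)
      _ ≤ (6 : ℕ) + 4 :=
          add_le_add (encard_le_of_finset (n := 6) fun T hT => card_perp he0 he1 heq hK0 T hT) hZ0
      _ = 10 := by norm_num

end Pool.Agent.N657.CE
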