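import Pool.Agent.N657.CE.Circle

/-!
# The case of orthogonal planes (`α² + β² = 1`)
-/

set_option autoImplicit false

namespace Pool.Agent.N657.CE

open Real Set

lemma HH_eq {e φ K c s l f : ℝ} (hl0 : l ≠ 0) (hs0 : s ≠ 0)
    (h : (1 + e * c) * (e * s - (cos φ * c + sin φ * s) * (sin φ * c - cos φ * s)
      - e * sin φ * (cos φ * c + sin φ * s)) = K * l * s) (hc : cos f = c) (hs : sin f = s) :
    (l = sin φ * c - cos φ * s → HH e φ f = -K) ∧
      (l = -(sin φ * c - cos φ * s) → HH e φ f = K) := by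
  have hφ := sin_sq_add_cos_sq φ
  have h1 : (1 + e * c) * (e * s - (cos φ * c + sin φ * s) * (sin φ * c - cos φ * s)
      - e * sin φ * (cos φ * c + sin φ * s))
      = -((sin φ * c - cos φ * s) * ((1 + e * c) * ((cos φ * c + sin φ * s) + e * cos φ))) := by
    linear_combination (-(e * s * (1 + e * c))) * hφ
  rw [h1] at h
  have h2 : HH e φ f = (1 + e * c) * ((cos φ * c + sin φ * s) + e * cos φ) / s := by
    unfold HH
    rw [cos_sub, hc, hs]
    ring_nf
  rw [h2]
  constructor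
  · intro hl
    rw [← hl] at h
    rw [div_eq_iff hs0]
    have : l * ((1 + e * c) * (cos φ * c + sin φ * s + e * cos φ)) = l * (-K * s) := by
      linear_combination (-1) * h
    exact mul_left_cancel₀ hl0 this
  · intro hl
    rw [show sin φ * c - cos φ * s = -l by linarith] at h
    rw [div_eq_iff hs0]
    have : l * ((1 + e * c) * (cos φ * c + sin φ * s + e * cos φ)) = l * (K * s) := by
      linear_combination h
    exact mul_left_cancel₀ hl0 this

/-- the case of orthogonal planes, `α = cos φ > 0`, `β = sin φ ≥ 0` -/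
lemma card_perp_pos {e φ K : ℝ} (he0 : 0 < e) (he1 : e < 1)
    (hφ0 : 0 ≤ φ) (hφ1 : φ < π / 2) (hK : 0 < K) (T : Finset (ℝ × ℝ × ℝ))
    (hT : ∀ x ∈ T, x ∈ ZZ (cos φ) (sin φ) e K) : T.card ≤ 6 := by
  classical
  have hcφ : 0 < cos φ := cos_pos_of_mem_Ioo ⟨by linarith [pi_pos], hφ1⟩
  have hsφ : 0 ≤ sin φ := sin_nonneg_of_nonneg_of_le_pi hφ0 (by linarith [pi_pos])
  have hφ := sin_sq_add_cos_sq φ
  have hlz : ∀ x ∈ T, x.2.2 ^ 2 = (sin φ * x.1 - cos φ * x.2.1) ^ 2 := by
    intro x hx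
    obtain ⟨h1, h2, -, -⟩ := hT x hx
    rw [h2]
    linear_combination (-1) * h1 + (-(x.1 ^ 2 + x.2.1 ^ 2)) * hφ
  have hs : ∀ x ∈ T, x.2.1 ≠ 0 := by
    intro x hx h0
    have h7 := hlz x hx
    obtain ⟨h1, -, h3, h4⟩ := hT x hx
    rw [h0] at h1 h4 h7
    have h5 : x.1 ^ 2 = 1 := by linarith
    have h6 : cos φ * sin φ * ((1 + e * x.1) * (1 + e * x.1)) = 0 := by
      have : (1 + e * x.1) * (e * 0 - (cos φ * x.1 + sin φ * 0) * (sin φ * x.1 - cos φ * 0)
        - e * sin φ * (cos φ * x.1 + sin φ * 0))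
        = -(cos φ * sin φ * (1 + e * x.1) * (x.1 ^ 2 + e * x.1)) := by ring
      rw [this, h5] at h4
      linarith
    have h8 : -1 ≤ x.1 := by nlinarith
    have h9 : 0 < 1 + e * x.1 := by nlinarith
    have h10 : 0 < (1 + e * x.1) * (1 + e * x.1) := by positivity
    have h11 : cos φ * sin φ = 0 := by
      rcases mul_eq_zero.1 h6 with h | h
      · exact h
      · exact absurd h h10.ne'
    have h12 : sin φ = 0 := by
      rcases mul_eq_zero.1 h11 with h | h
      · exact absurd h hcφ.ne'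
      · exact h
    rw [h12] at h7
    apply h3
    have : x.2.2 ^ 2 = 0 := by rw [h7]; ring
    exact pow_eq_zero_iff two_ne_zero |>.1 this
  have hor : ∀ x ∈ T, x.2.2 = sin φ * x.1 - cos φ * x.2.1 ∨
      x.2.2 = -(sin φ * x.1 - cos φ * x.2.1) := fun x hx => sq_eq_sq_iff_eq_or_eq_neg.1 (hlz x hx)
  set T1 := T.filter fun x => 0 < x.2.1 ∧ x.2.2 = sin φ * x.1 - cos φ * x.2.1 with hT1
  set T2 := T.filter fun x => 0 < x.2.1 ∧ x.2.2 = -(sin φ * x.1 - cos φ * x.2.1) with hT2
  set T3 := T.filter fun x => x.2.1 < 0 with hT3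
  have hcov : T ⊆ T1 ∪ T2 ∪ T3 := by
    intro x hx
    have h1 := hs x hx
    simp only [Finset.mem_union, hT1, hT2, hT3, Finset.mem_filter]
    rcases lt_or_gt_of_ne h1 with h | h
    · exact Or.inr ⟨hx, h⟩
    · rcases hor x hx with h' | h'
      · exact Or.inl (Or.inl ⟨hx, h, h'⟩)
      · exact Or.inl (Or.inr ⟨hx, h, h'⟩)
  have c1 : T1.card ≤ 1 := by
    have hinj : Set.InjOn (fun x : ℝ × ℝ × ℝ => arccos x.1) T1 := by
      intro x hx y hy hxy
      obtain ⟨hx, hx1, hx2⟩ := Finset.mem_filter.1 hx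
      obtain ⟨hy, hy1, hy2⟩ := Finset.mem_filter.1 hy
      obtain ⟨x1, x2, -, -⟩ := hT x hx
      obtain ⟨y1, y2, -, -⟩ := hT y hy
      have e1 : x.1 = y.1 := arccos_injOn (by
        have := circle_c_mem x1 hx1.ne'; exact ⟨this.1.le, this.2.le⟩) (by
        have := circle_c_mem y1 hy1.ne'; exact ⟨this.1.le, this.2.le⟩) hxy
      have e2 : x.2.1 = y.2.1 := eq_of_sq_eq_pos (by rw [e1] at x1; linarith) hx1 hy1
      have e3 : x.2.2 = y.2.2 := by rw [hx2, hy2, e1, e2]
      exact Prod.ext e1 (Prod.ext e2 e3)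
    rw [← Finset.card_image_of_injOn hinj]
    refine upper_HH he0 he1 hφ0 hφ1 (-K) _ ?_
    intro f hf
    obtain ⟨x, hx, rfl⟩ := Finset.mem_image.1 hf
    obtain ⟨hx, hx1, hx2⟩ := Finset.mem_filter.1 hx
    obtain ⟨x1, x2, x3, x4⟩ := hT x hx
    have hc := circle_c_mem x1 hx1.ne'
    refine ⟨⟨arccos_pos.2 hc.2, arccos_lt_pi.2 hc.1⟩, ?_⟩
    exact (HH_eq x3 hx1.ne' x4 (cos_arccos hc.1.le hc.2.le) (sin_arccos_pos x1 hx1)).1 hx2
  have c2 : T2.card ≤ 1 := by
    have hinj : Set.InjOn (fun x : ℝ × ℝ × ℝ => arccos x.1) T2 := by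
      intro x hx y hy hxy
      obtain ⟨hx, hx1, hx2⟩ := Finset.mem_filter.1 hx
      obtain ⟨hy, hy1, hy2⟩ := Finset.mem_filter.1 hy
      obtain ⟨x1, x2, -, -⟩ := hT x hx
      obtain ⟨y1, y2, -, -⟩ := hT y hy
      have e1 : x.1 = y.1 := arccos_injOn (by
        have := circle_c_mem x1 hx1.ne'; exact ⟨this.1.le, this.2.le⟩) (by
        have := circle_c_mem y1 hy1.ne'; exact ⟨this.1.le, this.2.le⟩) hxy
      have e2 : x.2.1 = y.2.1 := eq_of_sq_eq_pos (by rw [e1] at x1; linarith) hx1 hy1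
      have e3 : x.2.2 = y.2.2 := by rw [hx2, hy2, e1, e2]
      exact Prod.ext e1 (Prod.ext e2 e3)
    rw [← Finset.card_image_of_injOn hinj]
    refine upper_HH he0 he1 hφ0 hφ1 K _ ?_
    intro f hf
    obtain ⟨x, hx, rfl⟩ := Finset.mem_image.1 hf
    obtain ⟨hx, hx1, hx2⟩ := Finset.mem_filter.1 hx
    obtain ⟨x1, x2, x3, x4⟩ := hT x hx
    have hc := circle_c_mem x1 hx1.ne'
    refine ⟨⟨arccos_pos.2 hc.2, arccos_lt_pi.2 hc.1⟩, ?_⟩
    exact (HH_eq x3 hx1.ne' x4 (cos_arccos hc.1.le hc.2.le) (sin_arccos_pos x1 hx1)).2 hx2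
  have c3 : T3.card ≤ 4 := by
    have hval : ∀ x ∈ T3, (x.2.2 = sin φ * x.1 - cos φ * x.2.1 → HH e φ (-arccos x.1) = -K) ∧
        (x.2.2 = -(sin φ * x.1 - cos φ * x.2.1) → HH e φ (-arccos x.1) = K) := by
      intro x hx
      obtain ⟨hx, hx1⟩ := Finset.mem_filter.1 hx
      obtain ⟨x1, x2, x3, x4⟩ := hT x hx
      have hc := circle_c_mem x1 hx1.ne
      exact HH_eq x3 hx1.ne x4 (by rw [cos_neg]; exact cos_arccos hc.1.le hc.2.le)
        (by rw [sin_neg, sin_arccos_neg x1 hx1, neg_neg])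
    have hinj : Set.InjOn (fun x : ℝ × ℝ × ℝ => -arccos x.1) T3 := by
      intro x hx0 y hy0 hxy
      obtain ⟨hx, hx1⟩ := Finset.mem_filter.1 hx0
      obtain ⟨hy, hy1⟩ := Finset.mem_filter.1 hy0
      obtain ⟨x1, x2, x3, -⟩ := hT x hx
      obtain ⟨y1, y2, y3, -⟩ := hT y hy
      simp only [neg_inj] at hxy
      have e1 : x.1 = y.1 := arccos_injOn (by
        have := circle_c_mem x1 hx1.ne; exact ⟨this.1.le, this.2.le⟩) (by
        have := circle_c_mem y1 hy1.ne; exact ⟨this.1.le, this.2.le⟩) hxy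
      have e2 : x.2.1 = y.2.1 := eq_of_sq_eq_neg (by rw [e1] at x1; linarith) hx1 hy1
      have e3 : x.2.2 = y.2.2 := by
        have vx := hval x hx0
        have vy := hval y hy0
        rw [← e1] at vy
        rcases hor x hx with h | h <;> rcases hor y hy with h' | h'
        · rw [h, h', e1, e2]
        · exfalso
          have a1 := vx.1 h
          have a2 := vy.2 (by rw [h', e1])
          linarith
        · exfalso
          have a1 := vx.2 h
          have a2 := vy.1 (by rw [h', e1])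
          linarith
        · rw [h, h', e1, e2]
      exact Prod.ext e1 (Prod.ext e2 e3)
    rw [← Finset.card_image_of_injOn hinj]
    refine lower_HH he0 he1 hφ0 hφ1 hK _ ?_
    intro f hf
    obtain ⟨x, hx0, rfl⟩ := Finset.mem_image.1 hf
    obtain ⟨hx, hx1⟩ := Finset.mem_filter.1 hx0
    obtain ⟨x1, x2, x3, x4⟩ := hT x hx
    have hc := circle_c_mem x1 hx1.ne
    refine ⟨⟨by have := arccos_lt_pi.2 hc.1; linarith, by have := arccos_pos.2 hc.2; linarith⟩, ?_⟩
    rcases hor x hx with h | h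
    · exact Or.inr ((hval x hx0).1 h)
    · exact Or.inl ((hval x hx0).2 h)
  have h := (Finset.card_le_card hcov).trans (Finset.card_union_le _ _)
  have h' := Finset.card_union_le T1 T2
  omega

/-- orthogonal planes, `α = 0` -/
lemma card_perp_zero {e β K : ℝ} (he0 : 0 < e) (he1 : e < 1) (hβ : β ^ 2 = 1)
    (hK : 0 < K) (T : Finset (ℝ × ℝ × ℝ)) (hT : ∀ x ∈ T, x ∈ ZZ 0 β e K) : T.card ≤ 6 := by
  classical
  have hlc : ∀ x ∈ T, x.2.2 ^ 2 = x.1 ^ 2 := by
    intro x hx
    obtain ⟨h1, h2, -, -⟩ := hT x hx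
    rw [h2]
    linear_combination (-1) * h1 + (-(x.2.1 ^ 2)) * hβ
  have hne : ∀ x ∈ T, x.2.1 ≠ 0 → x.2.2 = -x.1 ∧ 1 + e * x.1 = K := by
    intro x hx hs
    have h0 := hlc x hx
    obtain ⟨h1, h2, h3, h4⟩ := hT x hx
    have hc := circle_c_mem h1 hs
    have hT0 : 0 < 1 + e * x.1 := by nlinarith [hc.1]
    have h5 : -((1 + e * x.1) * x.1) = K * x.2.2 := by
      have : (-((1 + e * x.1) * x.1)) * x.2.1 = (K * x.2.2) * x.2.1 := by
        rw [← h4]
        linear_combination (x.2.1 * (1 + e * x.1) * (x.1 + e)) * hβ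
      exact mul_right_cancel₀ hs this
    rcases sq_eq_sq_iff_eq_or_eq_neg.1 h0 with h | h
    · exfalso
      rw [h] at h5 h3
      have : -(1 + e * x.1) = K := by
        have : (-(1 + e * x.1)) * x.1 = K * x.1 := by rw [← h5]; ring
        exact mul_right_cancel₀ h3 this
      linarith
    · refine ⟨h, ?_⟩
      rw [h] at h5 h3
      have h6 : x.1 ≠ 0 := fun hh => h3 (by rw [hh, neg_zero])
      have : (1 + e * x.1) * x.1 = K * x.1 := by linarith
      exact mul_right_cancel₀ h6 this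
  set T0 := T.filter fun x => x.2.1 = 0 with hT0
  set T1 := T.filter fun x => x.2.1 ≠ 0 with hT1
  have hcov : T ⊆ T0 ∪ T1 := by
    intro x hx
    simp only [Finset.mem_union, hT0, hT1, Finset.mem_filter]
    by_cases h : x.2.1 = 0
    · exact Or.inl ⟨hx, h⟩
    · exact Or.inr ⟨hx, h⟩
  have c0 : T0.card ≤ 4 := by
    let κ : ℝ × ℝ × ℝ → Bool × Bool := fun x => (decide (0 < x.1), decide (0 < x.2.2))
    have hinj : Set.InjOn κ T0 := by
      intro x hx y hy hxy
      obtain ⟨hx, hs⟩ := Finset.mem_filter.1 hx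
      obtain ⟨hy, hs'⟩ := Finset.mem_filter.1 hy
      obtain ⟨x1, x2, x3, x4⟩ := hT x hx
      obtain ⟨y1, y2, y3, y4⟩ := hT y hy
      simp only [κ, Prod.mk.injEq, decide_eq_decide] at hxy
      obtain ⟨k2, k3⟩ := hxy
      have hx2 : x.1 ^ 2 = 1 := by rw [hs] at x1; linarith
      have hy2 : y.1 ^ 2 = 1 := by rw [hs'] at y1; linarith
      have e1 : x.1 = y.1 := by
        have hx0 : x.1 ≠ 0 := by intro h; rw [h] at hx2; norm_num at hx2
        have hy0 : y.1 ≠ 0 := by intro h; rw [h] at hy2; norm_num at hy2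
        rcases lt_or_gt_of_ne hx0 with h | h
        · have h' : y.1 < 0 := by
            rcases lt_or_gt_of_ne hy0 with h' | h'
            · exact h'
            · exact absurd (k2.2 h') (by linarith)
          exact eq_of_sq_eq_neg (by rw [hx2, hy2]) h h'
        · exact eq_of_sq_eq_pos (by rw [hx2, hy2]) h (k2.1 h)
      have e3 : x.2.2 = y.2.2 := by
        rcases lt_or_gt_of_ne x3 with h | h
        · have h' : y.2.2 < 0 := by
            rcases lt_or_gt_of_ne y3 with h' | h'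
            · exact h'
            · exact absurd (k3.2 h') (by linarith)
          exact eq_of_sq_eq_neg (by rw [x2, y2, e1, hs, hs']) h h'
        · exact eq_of_sq_eq_pos (by rw [x2, y2, e1, hs, hs']) h (k3.1 h)
      exact Prod.ext e1 (Prod.ext (by rw [hs, hs']) e3)
    have hcard : T0.card ≤ (Finset.univ : Finset (Bool × Bool)).card :=
      Finset.card_le_card_of_injOn κ (fun _ _ => Finset.mem_coe.2 (Finset.mem_univ _)) hinj
    have : (Finset.univ : Finset (Bool × Bool)).card = 4 := by decide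
    omega
  have c1 : T1.card ≤ 2 := by
    let κ : ℝ × ℝ × ℝ → Bool := fun x => decide (0 < x.2.1)
    have hinj : Set.InjOn κ T1 := by
      intro x hx y hy hxy
      obtain ⟨hx, hs⟩ := Finset.mem_filter.1 hx
      obtain ⟨hy, hs'⟩ := Finset.mem_filter.1 hy
      obtain ⟨x1, -, -, -⟩ := hT x hx
      obtain ⟨y1, -, -, -⟩ := hT y hy
      obtain ⟨a1, a2⟩ := hne x hx hs
      obtain ⟨b1, b2⟩ := hne y hy hs'
      simp only [κ, decide_eq_decide] at hxy
      have e1 : x.1 = y.1 := by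
        have : e * x.1 = e * y.1 := by linarith
        exact mul_left_cancel₀ he0.ne' this
      have e2 : x.2.1 = y.2.1 := by
        rcases lt_or_gt_of_ne hs with h | h
        · have h' : y.2.1 < 0 := by
            rcases lt_or_gt_of_ne hs' with h' | h'
            · exact h'
            · exact absurd (hxy.2 h') (by linarith)
          exact eq_of_sq_eq_neg (by rw [e1] at x1; linarith) h h'
        · exact eq_of_sq_eq_pos (by rw [e1] at x1; linarith) h (hxy.1 h)
      exact Prod.ext e1 (Prod.ext e2 (by rw [a1, b1, e1]))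
    have hcard : T1.card ≤ (Finset.univ : Finset Bool).card :=
      Finset.card_le_card_of_injOn κ (fun _ _ => Finset.mem_coe.2 (Finset.mem_univ _)) hinj
    have : (Finset.univ : Finset Bool).card = 2 := by decide
    omega
  have h := (Finset.card_le_card hcov).trans (Finset.card_union_le _ _)
  omega

/-- orthogonal planes -/
lemma card_perp {e α β K : ℝ} (he0 : 0 < e) (he1 : e < 1) (hαβ : α ^ 2 + β ^ 2 = 1)
    (hK : 0 < K) (T : Finset (ℝ × ℝ × ℝ)) (hT : ∀ x ∈ T, x ∈ ZZ α β e K) : T.card ≤ 6 := by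
  classical
  rcases eq_or_ne α 0 with hα | hα
  · subst hα
    exact card_perp_zero he0 he1 (by linarith) hK T hT
  have pos : ∀ α β : ℝ, 0 < α → 0 ≤ β → α ^ 2 + β ^ 2 = 1 → ∀ T : Finset (ℝ × ℝ × ℝ),
      (∀ x ∈ T, x ∈ ZZ α β e K) → T.card ≤ 6 := by
    intro α β hα hβ hαβ T hT
    obtain ⟨ρ, φ, h1, h2, h3, h4, h5, h6, -⟩ := exists_polar hα hβ
    have hρ : ρ = 1 := by nlinarith
    rw [hρ, one_mul] at h5 h6
    rw [h5, h6] at hT
    exact card_perp_pos he0 he1 h3 h4 hK T hT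
  rcases lt_or_gt_of_ne hα with ha | ha <;> rcases le_or_gt 0 β with hb | hb
  · rw [← Finset.card_image_of_injective T flip_injective]
    refine pos (-α) β (by linarith) hb (by nlinarith) _ fun y hy => ?_
    obtain ⟨x, hx, rfl⟩ := Finset.mem_image.1 hy
    have := zz_neg (zz_flip (hT x hx))
    rwa [neg_neg] at this
  · exact pos (-α) (-β) (by linarith) (by linarith) (by nlinarith) T fun x hx => zz_neg (hT x hx)
  · exact pos α β ha hb hαβ T hT
  · rw [← Finset.card_image_of_injective T flip_injective]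
    refine pos α (-β) ha (by linarith) (by nlinarith) _ fun y hy => ?_
    obtain ⟨x, hx, rfl⟩ := Finset.mem_image.1 hy
    exact zz_flip (hT x hx)

/-- non-orthogonal planes -/
lemma card_nonperp {e α β K : ℝ} (he0 : 0 < e) (he1 : e < 1) (hαβ : α ^ 2 + β ^ 2 < 1)
    (hK : 0 < K) (T : Finset (ℝ × ℝ × ℝ)) (hT : ∀ x ∈ T, x ∈ ZZ α β e K) : T.card ≤ 10 := by
  rcases eq_or_ne β 0 with hβ | hβ
  · subst hβ
    exact card_beta_zero he0 he1 (by linarith) hK T hT
  rcases eq_or_ne α 0 with hα | hα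
  · subst hα
    exact card_alpha_zero he0 he1 hβ (by linarith) hK T hT
  exact card_generic he0 he1 hα hβ hαβ hK T hT

end Pool.Agent.N657.CE
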